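import Mathlib

/-!
# MP_3d22c5_an (S04415): statements of the packages

Every rational form of the real 2-step nilpotent Lie algebra of a graph whose standard rational form is
Anosov is Anosov.
-/

set_option autoImplicit false

open Polynomial

namespace Pool.Agent.P8H59.An

/-- `w ≼ v`: every neighbour of `w` is `v` or a neighbour of `v`. -/
def Le {n : ℕ} (G : SimpleGraph (Fin n)) (w v : Fin n) : Prop :=
  ∀ u, G.Adj w u → u = v ∨ G.Adj v u

/-- the twin relation -/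
def Twin {n : ℕ} (G : SimpleGraph (Fin n)) (v w : Fin n) : Prop := Le G v w ∧ Le G w v

/-- condition (C): every vertex has a twin, and classes with exactly two elements are not edges. -/
def Cond {n : ℕ} (G : SimpleGraph (Fin n)) : Prop :=
  ∀ v, ∃ w, w ≠ v ∧ Twin G v w ∧ ((∀ u, Twin G v u → u = v ∨ u = w) → ¬ G.Adj v w)

/-- Package NEC: the standard rational form is Anosov only if (C) holds. -/
def S_NEC : Prop :=
  ∀ (n : ℕ) (G : SimpleGraph (Fin n)) (N : Type) [LieRing N] [LieAlgebra ℚ N]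
      [FiniteDimensional ℚ N] (b : Module.Basis (Fin n ⊕ G.edgeSet) ℚ N),
      (∀ (i j : Fin n) (h : G.Adj i j), i < j →
          ⁅b (Sum.inl i), b (Sum.inl j)⁆ = b (Sum.inr ⟨s(i, j), G.mem_edgeSet.mpr h⟩)) →
      (∀ i j : Fin n, ¬ G.Adj i j → ⁅b (Sum.inl i), b (Sum.inl j)⁆ = 0) →
      (∀ (e : G.edgeSet) (k : Fin n ⊕ G.edgeSet), ⁅b (Sum.inr e), b k⁆ = 0) →
      (∃ f : N ≃ₗ⁅ℚ⁆ N, ∃ p : Polynomial ℤ,
          p.map (Int.castRingHom ℚ) = LinearMap.charpoly f.toLinearEquiv.toLinearMap ∧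
          (p.coeff 0 = 1 ∨ p.coeff 0 = -1) ∧
          ∀ z : ℂ, (p.map (Int.castRingHom ℂ)).IsRoot z → ‖z‖ ≠ 1) →
      Cond G

/-- Package PAD: a nonzero finitely generated `ℚ`-algebra has a point over some `ℚ_p`. -/
def S_PAD : Prop :=
  ∀ (A : Type) [CommRing A] [Algebra ℚ A] [Algebra.FiniteType ℚ A] [Nontrivial A],
    ∃ (p : ℕ) (_ : Fact p.Prime), Nonempty (A →ₐ[ℚ] ℚ_[p])

/-- Package UNI: units of the totally real étale algebra `ℚ[x]/P`. -/
def S_UNI : Prop :=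
  ∀ (n : ℕ) (G : SimpleGraph (Fin n)) (P : ℚ[X]) (x : Fin n → ℝ), Function.Injective x →
    P.map (algebraMap ℚ ℝ) = ∏ i, (X - C (x i)) →
    (∀ i, 2 ≤ (minpoly ℚ (x i)).natDegree) →
    (∀ i j, G.Adj i j → minpoly ℚ (x i) = minpoly ℚ (x j) → 3 ≤ (minpoly ℚ (x i)).natDegree) →
    ∃ h : ℚ[X], (∀ i, IsIntegral ℤ (aeval (x i) h) ∧ IsIntegral ℤ (aeval (x i) h)⁻¹ ∧
        aeval (x i) h ≠ 0 ∧ |aeval (x i) h| ≠ 1) ∧
      ∀ i j, G.Adj i j → |aeval (x i) h * aeval (x j) h| ≠ 1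

/-- Package FFM: over a finite field there is a matrix with irreducible characteristic polynomial of
each positive size. -/
def S_FFM : Prop :=
  ∀ (p : ℕ) [Fact p.Prime] (ι : Type) [Fintype ι] [DecidableEq ι] [Nonempty ι],
    ∃ A : Matrix ι ι (ZMod p), Irreducible A.charpoly

end Pool.Agent.P8H59.An
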