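import Pool.Agent.P8H59.An.Point

/-!
# Weak approximation and the derivation (for S04415)
-/

set_option autoImplicit false
set_option linter.unusedSectionVars false

open Matrix Polynomial Filter Topology

namespace Pool.Agent.P8H59.An

theorem tendsto_floor_div (b : ℝ) :
    Tendsto (fun N : ℕ => (⌊(N : ℝ) * b⌋ : ℝ) / N) atTop (𝓝 b) := by
  have h1 : Tendsto (fun N : ℕ => Int.fract ((N : ℝ) * b) / (N : ℝ)) atTop (𝓝 0) := by
    refine squeeze_zero (fun N => by positivity) (fun N => ?_)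
      (tendsto_one_div_atTop_nhds_zero_nat (𝕜 := ℝ))
    exact div_le_div_of_nonneg_right (Int.fract_lt_one _).le (Nat.cast_nonneg _)
  have h2 : Tendsto (fun N : ℕ => b - Int.fract ((N : ℝ) * b) / (N : ℝ)) atTop (𝓝 (b - 0)) :=
    tendsto_const_nhds.sub h1
  rw [sub_zero] at h2
  refine h2.congr' ?_
  filter_upwards [eventually_gt_atTop 0] with N hN
  have hN' : (N : ℝ) ≠ 0 := by exact_mod_cast hN.ne'
  have h3 := Int.floor_add_fract ((N : ℝ) * b)
  rw [eq_div_iff hN', sub_mul, div_mul_cancel₀ _ hN']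
  linarith [mul_comm (N : ℝ) b]

theorem weak_approx {r : ℕ} (p : ℕ) [hp : Fact p.Prime] (c₀ : Fin r → ℚ_[p]) (a : Fin r → ℝ)
    {U : Set (Fin r → ℚ_[p])} (hU : U ∈ 𝓝 c₀) {V : Set (Fin r → ℝ)} (hV : V ∈ 𝓝 a) :
    ∃ (q : Fin r → ℚ) (N : ℕ), 0 < N ∧ (fun t => algebraMap ℚ ℚ_[p] (q t)) ∈ U ∧
      (fun t => (N : ℝ)⁻¹ * algebraMap ℚ ℝ (q t)) ∈ V := by
  obtain ⟨ε, hε, hεU⟩ := Metric.mem_nhds_iff.1 hU
  have h1 : ∀ t, ∃ x : ℚ, ‖c₀ t - x‖ < ε := fun t => Padic.rat_dense p (c₀ t) hε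
  choose x hx using h1
  have hp1 : (1 : ℝ) < p := by exact_mod_cast hp.1.one_lt
  have hp0 : (p : ℝ) ≠ 0 := by positivity
  obtain ⟨K, hK⟩ : ∃ K : ℕ, (p : ℝ) ^ (-(K : ℤ)) < ε := by
    obtain ⟨K, hK⟩ := exists_pow_lt_of_lt_one hε (inv_lt_one_of_one_lt₀ hp1)
    exact ⟨K, by rwa [_root_.zpow_neg, zpow_natCast, ← inv_pow]⟩
  let q : ℕ → Fin r → ℚ := fun N t => x t + (p : ℚ) ^ K * ⌊(N : ℝ) * (a t / (p : ℝ) ^ K)⌋
  have hqU : ∀ N, (fun t => algebraMap ℚ ℚ_[p] (q N t)) ∈ U := by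
    intro N
    apply hεU
    rw [Metric.mem_ball, dist_pi_lt_iff hε]
    intro t
    rw [dist_eq_norm]
    have h2 : algebraMap ℚ ℚ_[p] (q N t) - c₀ t =
        -(c₀ t - (x t : ℚ_[p])) + (p : ℚ_[p]) ^ K * (⌊(N : ℝ) * (a t / (p : ℝ) ^ K)⌋ : ℤ) := by
      simp only [q, eq_ratCast]
      push_cast
      ring
    rw [h2]
    refine lt_of_le_of_lt (Padic.nonarchimedean _ _) (max_lt ?_ ?_)
    · rw [norm_neg]; exact hx t
    · rw [norm_mul, Padic.norm_p_pow]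
      refine lt_of_le_of_lt ?_ hK
      exact mul_le_of_le_one_right (by positivity) (Padic.norm_int_le_one _)
  have hqV : Tendsto (fun N : ℕ => fun t => (N : ℝ)⁻¹ * algebraMap ℚ ℝ (q N t)) atTop (𝓝 a) := by
    rw [tendsto_pi_nhds]
    intro t
    have h3 : Tendsto (fun N : ℕ => (x t : ℝ) / N) atTop (𝓝 0) :=
      tendsto_const_div_atTop_nhds_zero_nat _
    have h5 := h3.add ((tendsto_floor_div (a t / (p : ℝ) ^ K)).const_mul ((p : ℝ) ^ K))
    rw [zero_add, mul_div_cancel₀ _ (pow_ne_zero _ hp0)] at h5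
    refine h5.congr fun N => ?_
    simp only [q, eq_ratCast]
    push_cast
    ring
  obtain ⟨N, hN⟩ := ((hqV.eventually_mem hV).and (eventually_gt_atTop 0)).exists
  exact ⟨q N, N, hN.2, hqU N, hN.1⟩

theorem charpoly_smul_root {ι : Type*} [Fintype ι] [DecidableEq ι] {k : Type*} [Field k]
    (M : Matrix ι ι k) (c ξ : k) (hc : c ≠ 0) (h : (c⁻¹ • M).charpoly.IsRoot ξ) :
    M.charpoly.IsRoot (c * ξ) := by
  rw [Polynomial.IsRoot, Matrix.eval_charpoly] at h ⊢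
  have h1 : Matrix.scalar ι (c * ξ) - M = c • (Matrix.scalar ι ξ - c⁻¹ • M) := by
    ext i j
    simp only [Matrix.sub_apply, Matrix.smul_apply, Matrix.scalar_apply, Matrix.diagonal_apply,
      smul_eq_mul]
    split_ifs
    · field_simp
    · field_simp; ring
  rw [h1, Matrix.det_smul, h, mul_zero]

section

variable {n : ℕ} (G : SimpleGraph (Fin n)) [Fintype G.edgeSet] [DecidableEq G.edgeSet]

/-- the real side -/
theorem real_side (hPERT : S_PERT) {γ : Fin n → Fin n → G.edgeSet → ℚ}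
    {P P' : Matrix (Fin n) (Fin n) ℝ} {Q Q' : Matrix G.edgeSet G.edgeSet ℝ}
    (hP : P' * P = 1) (hP' : P * P' = 1) (hQ : Q' * Q = 1) (hQ' : Q * Q' = 1)
    (h : IsHm (bc (algebraMap ℚ ℝ) γ) (bc (algebraMap ℚ ℝ) (gam G)) P Q) :
    ∃ (A₂ : Matrix (Fin n) (Fin n) ℝ) (B₂ : Matrix G.edgeSet G.edgeSet ℝ),
      IsDer (bc (algebraMap ℚ ℝ) γ) A₂ B₂ ∧
      (∀ᶠ A in 𝓝 A₂, ∃ ξ : Fin n → ℝ, ∀ i, |ξ i - 4 ^ (i : ℕ)| < 1 / 10 ∧
        A.charpoly.IsRoot (ξ i)) ∧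
      (∀ᶠ B in 𝓝 B₂, ∃ υ : G.edgeSet → ℝ, ∀ e : G.edgeSet,
        |υ e - (4 ^ (e.1.inf : ℕ) + 4 ^ (e.1.sup : ℕ))| < 1 / 10 ∧ B.charpoly.IsRoot (υ e)) := by
  classical
  refine ⟨_, _, (real_target G).conj h hP hP' hQ, ?_, ?_⟩
  · have hcont : Continuous fun A : Matrix (Fin n) (Fin n) ℝ => P * A * P' :=
      (continuous_const.matrix_mul continuous_id).matrix_mul continuous_const
    have hval : ∀ D : Matrix (Fin n) (Fin n) ℝ, P * (P' * D * P) * P' = D := by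
      intro D
      rw [← Matrix.mul_assoc, ← Matrix.mul_assoc, hP', Matrix.one_mul, Matrix.mul_assoc, hP',
        Matrix.mul_one]
    have h1 := hcont.tendsto (P' * (Matrix.diagonal fun i : Fin n => (4 : ℝ) ^ (i : ℕ)) * P)
    simp only [hval] at h1
    have h2 := hPERT (Fin n) (fun i => 4 ^ (i : ℕ))
      (fun i j hij => Fin.ext (Nat.pow_right_injective (le_refl 2 |>.trans (by norm_num)) hij))
    have h3 : (Matrix.diagonal fun i : Fin n => (((4 ^ (i : ℕ) : ℕ)) : ℝ)) =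
        Matrix.diagonal fun i : Fin n => (4 : ℝ) ^ (i : ℕ) := by
      congr 1; ext i; push_cast; rfl
    rw [h3] at h2
    filter_upwards [h1.eventually h2] with A hA
    choose ξ hξ using hA
    refine ⟨ξ, fun i => ⟨?_, ?_⟩⟩
    · have := (hξ i).1
      push_cast at this
      exact this
    · have h4 := (hξ i).2
      rwa [Matrix.charpoly_mul_comm, ← Matrix.mul_assoc, hP, Matrix.one_mul] at h4
  · have hcont : Continuous fun A : Matrix G.edgeSet G.edgeSet ℝ => Q * A * Q' :=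
      (continuous_const.matrix_mul continuous_id).matrix_mul continuous_const
    have hval : ∀ D : Matrix G.edgeSet G.edgeSet ℝ, Q * (Q' * D * Q) * Q' = D := by
      intro D
      rw [← Matrix.mul_assoc, ← Matrix.mul_assoc, hQ', Matrix.one_mul, Matrix.mul_assoc, hQ',
        Matrix.mul_one]
    have h1 := hcont.tendsto (Q' * (Matrix.diagonal fun e : G.edgeSet =>
      (4 : ℝ) ^ (e.1.inf : ℕ) + 4 ^ (e.1.sup : ℕ)) * Q)
    simp only [hval] at h1
    have h2 := hPERT G.edgeSet (fun e => 4 ^ (e.1.inf : ℕ) + 4 ^ (e.1.sup : ℕ)) (by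
      intro e f hef
      have hlt : ∀ e : G.edgeSet, e.1.inf < e.1.sup := by
        rintro ⟨e, he⟩
        induction e with
        | h a b =>
          rw [SimpleGraph.mem_edgeSet] at he
          simp only [Sym2.inf_mk, Sym2.sup_mk]
          exact inf_lt_sup.2 he.ne
      have hef : 4 ^ (e.1.inf : ℕ) + 4 ^ (e.1.sup : ℕ) = 4 ^ (f.1.inf : ℕ) + 4 ^ (f.1.sup : ℕ) := hef
      have key : ∀ a b c d : ℕ, a < b → c < d → (4 : ℕ) ^ a + 4 ^ b = 4 ^ c + 4 ^ d → b ≤ d := by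
        intro a b c d hab hcd habcd
        by_contra hbd
        push Not at hbd
        have e1 : (4 : ℕ) ^ (d + 1) ≤ 4 ^ b := Nat.pow_le_pow_right (by norm_num) hbd
        have e2 : (4 : ℕ) ^ c < 4 ^ d := Nat.pow_lt_pow_right (by norm_num) hcd
        rw [pow_succ] at e1
        have e3 : 0 < (4 : ℕ) ^ a := by positivity
        have e4 : 0 < (4 : ℕ) ^ d := by positivity
        linarith
      have h5 : (e.1.sup : ℕ) = f.1.sup :=
        le_antisymm (key _ _ _ _ (hlt e) (hlt f) hef) (key _ _ _ _ (hlt f) (hlt e) hef.symm)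
      have h6 : (e.1.inf : ℕ) = f.1.inf := by
        simp only [h5] at hef
        have h7 : 4 ^ (e.1.inf : ℕ) = 4 ^ (f.1.inf : ℕ) := by omega
        exact Nat.pow_right_injective (by norm_num : 2 ≤ 4) h7
      apply Subtype.ext
      apply Sym2.inf_eq_inf_and_sup_eq_sup.1
      exact ⟨Fin.ext h6, Fin.ext h5⟩)
    have h3 : (Matrix.diagonal fun e : G.edgeSet =>
        (((4 ^ (e.1.inf : ℕ) + 4 ^ (e.1.sup : ℕ) : ℕ)) : ℝ)) =
        Matrix.diagonal fun e : G.edgeSet => (4 : ℝ) ^ (e.1.inf : ℕ) + 4 ^ (e.1.sup : ℕ) := by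
      congr 1; ext i; push_cast; rfl
    rw [h3] at h2
    filter_upwards [h1.eventually h2] with A hA
    choose ξ hξ using hA
    refine ⟨ξ, fun i => ⟨?_, ?_⟩⟩
    · have := (hξ i).1
      push_cast at this
      exact this
    · have h4 := (hξ i).2
      rwa [Matrix.charpoly_mul_comm, ← Matrix.mul_assoc, hQ, Matrix.one_mul] at h4

theorem exists_der (hF : S_FFM) (hPAD : S_PAD) (hPERT : S_PERT) (hC : Cond G)
    {γ : Fin n → Fin n → G.edgeSet → ℚ}
    {P P' : Matrix (Fin n) (Fin n) ℝ} {Q Q' : Matrix G.edgeSet G.edgeSet ℝ}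
    (hP : P' * P = 1) (hP' : P * P' = 1) (hQ : Q' * Q = 1) (hQ' : Q * Q' = 1)
    (h : IsHm (bc (algebraMap ℚ ℝ) γ) (bc (algebraMap ℚ ℝ) (gam G)) P Q) :
    ∃ (A : Matrix (Fin n) (Fin n) ℚ) (B : Matrix G.edgeSet G.edgeSet ℚ), IsDer γ A B ∧
      F1 A ∧ F2 γ A ∧ ∃ (T : ℝ) (ξ : Fin n → ℝ) (υ : G.edgeSet → ℝ), 0 < T ∧
      (∀ i, |ξ i - 4 ^ (i : ℕ)| < 1 / 10 ∧ (A.charpoly.map (algebraMap ℚ ℝ)).IsRoot (T * ξ i)) ∧
      (∀ e : G.edgeSet, |υ e - (4 ^ (e.1.inf : ℕ) + 4 ^ (e.1.sup : ℕ))| < 1 / 10 ∧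
        (B.charpoly.map (algebraMap ℚ ℝ)).IsRoot (T * υ e)) := by
  classical
  obtain ⟨p, hp, P₁, P₁', Q₁, Q₁', h1, h2, h3, h4, h5⟩ := padic_point G hPAD hP hP' hQ hQ' h
  obtain ⟨A₁, B₁, hd₁, hev₁⟩ := padic_side G hF hC h1 h2 h3 h4 h5
  obtain ⟨A₂, B₂, hd₂, hevA, hevB⟩ := real_side G hPERT hP hP' hQ hQ' h
  let d := Module.finBasis ℚ (derQ γ)
  obtain ⟨c₀, hcA, hcB⟩ := der_coords γ d hd₁
  obtain ⟨a, haA, haB⟩ := der_coords γ d hd₂
  have hcont₁ : Continuous fun c : Fin (Module.finrank ℚ (derQ γ)) → ℚ_[p] =>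
      ∑ t, c t • ((d t).1.1).map (algebraMap ℚ ℚ_[p]) :=
    continuous_finsetSum _ fun t _ => (continuous_apply t).smul continuous_const
  have hcont₂ : Continuous fun c : Fin (Module.finrank ℚ (derQ γ)) → ℝ =>
      ∑ t, c t • ((d t).1.1).map (algebraMap ℚ ℝ) :=
    continuous_finsetSum _ fun t _ => (continuous_apply t).smul continuous_const
  have hcont₃ : Continuous fun c : Fin (Module.finrank ℚ (derQ γ)) → ℝ =>
      ∑ t, c t • ((d t).1.2).map (algebraMap ℚ ℝ) :=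
    continuous_finsetSum _ fun t _ => (continuous_apply t).smul continuous_const
  have hU := (hcont₁.tendsto c₀).eventually (by rw [← hcA]; exact hev₁)
  have hVA := (hcont₂.tendsto a).eventually (by rw [← haA]; exact hevA)
  have hVB := (hcont₃.tendsto a).eventually (by rw [← haB]; exact hevB)
  obtain ⟨q, N, hN, hqU, hqV⟩ := weak_approx p c₀ a hU (hVA.and hVB)
  have hN' : (N : ℝ) ≠ 0 := by exact_mod_cast hN.ne'
  let D : derQ γ := ∑ t, q t • d t
  have hDA : D.1.1 = ∑ t, q t • (d t).1.1 := by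
    simp only [D, AddSubmonoidClass.coe_finsetSum, SetLike.val_smul, Prod.fst_sum, Prod.smul_fst]
  have hDB : D.1.2 = ∑ t, q t • (d t).1.2 := by
    simp only [D, AddSubmonoidClass.coe_finsetSum, SetLike.val_smul, Prod.snd_sum, Prod.smul_snd]
  have hmap : ∀ {k : Type} [Field k] (φ : ℚ →+* k) {ι : Type} [Fintype ι] [DecidableEq ι]
      (M : Fin (Module.finrank ℚ (derQ γ)) → Matrix ι ι ℚ),
      (∑ t, q t • M t).map φ = ∑ t, φ (q t) • (M t).map φ := by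
    intro k _ φ ι _ _ M
    ext i j
    rw [Matrix.map_apply, Matrix.sum_apply, Matrix.sum_apply, map_sum]
    exact Finset.sum_congr rfl fun t _ => by
      rw [Matrix.smul_apply, smul_eq_mul, map_mul, Matrix.smul_apply, smul_eq_mul, Matrix.map_apply]
  have hder : IsDer γ D.1.1 D.1.2 := D.2
  have hF12 := hqU D.1.1 D.1.2 (by rw [hDA, hmap]) hder
  obtain ⟨⟨ξ, hξ⟩, ⟨υ, hυ⟩⟩ := hqV
  refine ⟨D.1.1, D.1.2, hder, hF12.1, hF12.2, N, ξ, υ, by exact_mod_cast hN, fun i => ⟨(hξ i).1, ?_⟩,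
    fun e => ⟨(hυ e).1, ?_⟩⟩
  · rw [← Matrix.charpoly_map]
    apply charpoly_smul_root _ _ _ hN'
    have h6 : (N : ℝ)⁻¹ • D.1.1.map (algebraMap ℚ ℝ) =
        ∑ t, ((N : ℝ)⁻¹ * algebraMap ℚ ℝ (q t)) • ((d t).1.1).map (algebraMap ℚ ℝ) := by
      rw [hDA, hmap, Finset.smul_sum]
      exact Finset.sum_congr rfl fun t _ => by rw [smul_smul]
    rw [h6]
    exact (hξ i).2
  · rw [← Matrix.charpoly_map]
    apply charpoly_smul_root _ _ _ hN'
    have h6 : (N : ℝ)⁻¹ • D.1.2.map (algebraMap ℚ ℝ) =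
        ∑ t, ((N : ℝ)⁻¹ * algebraMap ℚ ℝ (q t)) • ((d t).1.2).map (algebraMap ℚ ℝ) := by
      rw [hDB, hmap, Finset.smul_sum]
      exact Finset.sum_congr rfl fun t _ => by rw [smul_smul]
    rw [h6]
    exact (hυ e).2

end

end Pool.Agent.P8H59.An
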