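import Mathlib

/-!
# Alternating structure constants, derivations and base change (for S04415)
-/

set_option autoImplicit false
set_option linter.unusedSectionVars false
set_option linter.unusedSimpArgs false

open Matrix

namespace Pool.Agent.P8H59.An

section

variable {S E : Type*} [Fintype S] [Fintype E] [DecidableEq S] [DecidableEq E]
variable {k : Type*} [CommRing k]

/-- the bilinear map with structure constants `γ` -/
def br (γ : S → S → E → k) : (S → k) →ₗ[k] (S → k) →ₗ[k] (E → k) :=
  LinearMap.mk₂ k (fun a b e => ∑ i, ∑ j, a i * b j * γ i j e)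
    (by intro a a' b; ext e; simp only [Pi.add_apply, add_mul, Finset.sum_add_distrib])
    (by
      intro c a b; ext e
      simp only [Pi.smul_apply, smul_eq_mul, Finset.mul_sum]
      exact Finset.sum_congr rfl fun i _ => Finset.sum_congr rfl fun j _ => by ring)
    (by
      intro a b b'; ext e
      simp only [Pi.add_apply, mul_add, add_mul, Finset.sum_add_distrib])
    (by
      intro c a b; ext e
      simp only [Pi.smul_apply, smul_eq_mul, Finset.mul_sum]
      exact Finset.sum_congr rfl fun i _ => Finset.sum_congr rfl fun j _ => by ring)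

theorem br_apply (γ : S → S → E → k) (a b : S → k) (e : E) :
    br γ a b e = ∑ i, ∑ j, a i * b j * γ i j e := rfl

theorem br_single (γ : S → S → E → k) (i j : S) :
    br γ (Pi.single i 1) (Pi.single j 1) = γ i j := by
  ext e
  rw [br_apply, Finset.sum_eq_single i, Finset.sum_eq_single j]
  · simp
  · intro l _ h; simp [Pi.single_apply, h]
  · simp
  · intro l _ h; simp [Pi.single_apply, h]
  · simp

/-- `(A, B)` is a derivation of the structure `γ` -/
def IsDer (γ : S → S → E → k) (A : Matrix S S k) (B : Matrix E E k) : Prop :=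
  ∀ a b, br γ (A *ᵥ a) b + br γ a (A *ᵥ b) = B *ᵥ br γ a b

/-- `(P, Q)` is a homomorphism of the structures `γ`, `γ'` -/
def IsHm {S' E' : Type*} [Fintype S'] [Fintype E'] [DecidableEq S'] [DecidableEq E']
    (γ : S → S → E → k) (γ' : S' → S' → E' → k) (P : Matrix S' S k) (Q : Matrix E' E k) : Prop :=
  ∀ a b, Q *ᵥ br γ a b = br γ' (P *ᵥ a) (P *ᵥ b)

theorem pi_decomp (a : S → k) : a = ∑ i, a i • (Pi.single i 1 : S → k) := by
  ext j
  simp [Pi.single_apply]

theorem bilin_ext {M : Type*} [AddCommGroup M] [Module k M]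
    (f g : (S → k) →ₗ[k] (S → k) →ₗ[k] M)
    (h : ∀ i j, f (Pi.single i 1) (Pi.single j 1) = g (Pi.single i 1) (Pi.single j 1)) : f = g := by
  refine LinearMap.pi_ext' fun i => LinearMap.ext_ring ?_
  refine LinearMap.pi_ext' fun j => LinearMap.ext_ring ?_
  simpa using h i j

theorem isDer_iff (γ : S → S → E → k) (A : Matrix S S k) (B : Matrix E E k) :
    IsDer γ A B ↔ ∀ i j e, ∑ l, A l i * γ l j e + ∑ l, A l j * γ i l e = ∑ f, B e f * γ i j f := by
  have key : ∀ i j e, ((br γ (A *ᵥ Pi.single i 1) (Pi.single j 1) +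
      br γ (Pi.single i 1) (A *ᵥ Pi.single j 1)) e = ∑ l, A l i * γ l j e + ∑ l, A l j * γ i l e) ∧
      (B *ᵥ br γ (Pi.single i 1) (Pi.single j 1)) e = ∑ f, B e f * γ i j f := by
    intro i j e
    constructor
    · rw [Pi.add_apply, br_apply, br_apply]
      congr 1
      · refine Finset.sum_congr rfl fun l _ => ?_
        rw [Finset.sum_eq_single j]
        · simp [Matrix.mulVec_single]
        · intro m _ h; simp [Pi.single_apply, h]
        · simp
      · rw [Finset.sum_eq_single i]
        · refine Finset.sum_congr rfl fun l _ => ?_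
          simp [Matrix.mulVec_single]
        · intro m _ h; simp [Pi.single_apply, h]
        · simp
    · rw [br_single]; rfl
  constructor
  · intro h i j e
    rw [← (key i j e).1, ← (key i j e).2, h]
  · intro h
    let f : (S → k) →ₗ[k] (S → k) →ₗ[k] (E → k) :=
      (br γ).compl₁₂ (Matrix.mulVecLin A) LinearMap.id + (br γ).compl₁₂ LinearMap.id (Matrix.mulVecLin A)
    let g : (S → k) →ₗ[k] (S → k) →ₗ[k] (E → k) := (br γ).compr₂ (Matrix.mulVecLin B)
    have hfg : f = g := by
      refine bilin_ext f g fun i j => ?_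
      ext e
      have h1 := key i j e
      have h2 := h i j e
      rw [← h1.1, ← h1.2] at h2
      exact h2
    intro a b
    exact congrFun (congrArg DFunLike.coe (congrFun (congrArg DFunLike.coe hfg) a)) b

theorem isHm_iff {S' E' : Type*} [Fintype S'] [Fintype E'] [DecidableEq S'] [DecidableEq E']
    (γ : S → S → E → k) (γ' : S' → S' → E' → k) (P : Matrix S' S k) (Q : Matrix E' E k) :
    IsHm γ γ' P Q ↔ ∀ i j e, ∑ f, Q e f * γ i j f = ∑ l, ∑ m, P l i * P m j * γ' l m e := by
  have key : ∀ i j e, ((Q *ᵥ br γ (Pi.single i 1) (Pi.single j 1)) e = ∑ f, Q e f * γ i j f) ∧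
      br γ' (P *ᵥ Pi.single i 1) (P *ᵥ Pi.single j 1) e = ∑ l, ∑ m, P l i * P m j * γ' l m e := by
    intro i j e
    constructor
    · rw [br_single]; rfl
    · rw [br_apply]
      simp [Matrix.mulVec_single]
  constructor
  · intro h i j e
    rw [← (key i j e).1, ← (key i j e).2, h]
  · intro h
    let f : (S → k) →ₗ[k] (S → k) →ₗ[k] (E' → k) := (br γ).compr₂ (Matrix.mulVecLin Q)
    let g : (S → k) →ₗ[k] (S → k) →ₗ[k] (E' → k) :=
      (br γ').compl₁₂ (Matrix.mulVecLin P) (Matrix.mulVecLin P)
    have hfg : f = g := by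
      refine bilin_ext f g fun i j => ?_
      ext e
      have h1 := key i j e
      have h2 := h i j e
      rw [← h1.1, ← h1.2] at h2
      exact h2
    intro a b
    exact congrFun (congrArg DFunLike.coe (congrFun (congrArg DFunLike.coe hfg) a)) b

/-- transport of derivations along an isomorphism -/
theorem IsDer.conj {γ γ' : S → S → E → k} {P P' : Matrix S S k} {Q Q' : Matrix E E k}
    (h : IsHm γ γ' P Q) (hP : P' * P = 1) (hP' : P * P' = 1) (hQ : Q' * Q = 1)
    {A : Matrix S S k} {B : Matrix E E k} (hd : IsDer γ' A B) :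
    IsDer γ (P' * A * P) (Q' * B * Q) := by
  intro a b
  have h1 : br γ ((P' * A * P) *ᵥ a) b = Q' *ᵥ br γ' (A *ᵥ (P *ᵥ a)) (P *ᵥ b) := by
    have h2 := h ((P' * A * P) *ᵥ a) b
    have h3 : P *ᵥ ((P' * A * P) *ᵥ a) = A *ᵥ (P *ᵥ a) := by
      rw [Matrix.mulVec_mulVec, ← Matrix.mul_assoc, ← Matrix.mul_assoc, hP', one_mul,
        ← Matrix.mulVec_mulVec]
    rw [h3] at h2
    rw [← h2, Matrix.mulVec_mulVec, hQ, Matrix.one_mulVec]
  have h1' : br γ a ((P' * A * P) *ᵥ b) = Q' *ᵥ br γ' (P *ᵥ a) (A *ᵥ (P *ᵥ b)) := by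
    have h2 := h a ((P' * A * P) *ᵥ b)
    have h3 : P *ᵥ ((P' * A * P) *ᵥ b) = A *ᵥ (P *ᵥ b) := by
      rw [Matrix.mulVec_mulVec, ← Matrix.mul_assoc, ← Matrix.mul_assoc, hP', one_mul,
        ← Matrix.mulVec_mulVec]
    rw [h3] at h2
    rw [← h2, Matrix.mulVec_mulVec, hQ, Matrix.one_mulVec]
  rw [h1, h1', ← Matrix.mulVec_add, hd, ← h, Matrix.mulVec_mulVec, Matrix.mulVec_mulVec,
    Matrix.mul_assoc]

/-- base change of structure constants -/
def bc {R : Type*} [CommRing R] (φ : R →+* k) (γ : S → S → E → R) : S → S → E → k :=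
  fun i j e => φ (γ i j e)

theorem IsDer.map {R : Type*} [CommRing R] (φ : R →+* k) {γ : S → S → E → R} {A : Matrix S S R}
    {B : Matrix E E R} (h : IsDer γ A B) : IsDer (bc φ γ) (A.map φ) (B.map φ) := by
  rw [isDer_iff] at h ⊢
  intro i j e
  have := congrArg φ (h i j e)
  simpa [bc, map_add, map_sum, map_mul] using this

theorem IsHm.map {R : Type*} [CommRing R] (φ : R →+* k)
    {S' E' : Type*} [Fintype S'] [Fintype E'] [DecidableEq S'] [DecidableEq E']
    {γ : S → S → E → R} {γ' : S' → S' → E' → R} {P : Matrix S' S R} {Q : Matrix E' E R}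
    (h : IsHm γ γ' P Q) : IsHm (bc φ γ) (bc φ γ') (P.map φ) (Q.map φ) := by
  rw [isHm_iff] at h ⊢
  intro i j e
  have := congrArg φ (h i j e)
  simpa [bc, map_add, map_sum, map_mul] using this

theorem br_bc {R : Type*} [CommRing R] (φ : R →+* k) (γ : S → S → E → R) (a b : S → R) :
    br (bc φ γ) (fun i => φ (a i)) (fun i => φ (b i)) = fun e => φ (br γ a b e) := by
  ext e
  simp [br_apply, bc, map_sum, map_mul]

end

/-! ### base change of the space of derivations -/

section

variable {S E : Type*} [Fintype S] [Fintype E] [DecidableEq S] [DecidableEq E]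

/-- the space of rational derivations -/
def derQ (γ : S → S → E → ℚ) : Submodule ℚ (Matrix S S ℚ × Matrix E E ℚ) where
  carrier := {D | IsDer γ D.1 D.2}
  add_mem' := by
    intro D D' h h' a b
    simp only [Prod.fst_add, Prod.snd_add, Matrix.add_mulVec, map_add, LinearMap.add_apply]
    have h1 := h a b
    have h2 := h' a b
    rw [← h1, ← h2]
    abel
  zero_mem' := by intro a b; simp
  smul_mem' := by
    intro c D h a b
    simp only [Prod.smul_fst, Prod.smul_snd, Matrix.smul_mulVec, map_smul,
      LinearMap.smul_apply]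
    rw [← h a b, smul_add]

theorem der_base_change {k : Type*} [Field k] [Algebra ℚ k] (γ : S → S → E → ℚ)
    {A : Matrix S S k} {B : Matrix E E k} (h : IsDer (bc (algebraMap ℚ k) γ) A B) :
    ∃ (s : Finset (Module.Free.ChooseBasisIndex ℚ k)) (D : Module.Free.ChooseBasisIndex ℚ k → derQ γ),
      A = ∑ β ∈ s, Module.Free.chooseBasis ℚ k β • ((D β).1.1).map (algebraMap ℚ k) ∧
      B = ∑ β ∈ s, Module.Free.chooseBasis ℚ k β • ((D β).1.2).map (algebraMap ℚ k) := by
  classical
  set bk := Module.Free.chooseBasis ℚ k with hbk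
  rw [isDer_iff] at h
  let D : Module.Free.ChooseBasisIndex ℚ k → derQ γ := fun β =>
    ⟨(Matrix.of fun i j => bk.repr (A i j) β, Matrix.of fun i j => bk.repr (B i j) β), by
      change IsDer γ _ _
      rw [isDer_iff]
      intro i j e
      have h1 := congrArg (fun z => bk.repr z β) (h i j e)
      have h2 : ∀ (x : k) (q : ℚ), bk.repr (x * algebraMap ℚ k q) β = bk.repr x β * q := by
        intro x q
        rw [mul_comm, ← Algebra.smul_def, map_smul, Finsupp.smul_apply, smul_eq_mul, mul_comm]
      simp only [bc, map_add, map_sum, Finsupp.add_apply, Finsupp.finsetSum_apply, h2] at h1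
      simpa using h1⟩
  let s : Finset (Module.Free.ChooseBasisIndex ℚ k) :=
    (Finset.univ.biUnion fun i => Finset.univ.biUnion fun j => (bk.repr (A i j)).support) ∪
    (Finset.univ.biUnion fun i => Finset.univ.biUnion fun j => (bk.repr (B i j)).support)
  have hrep : ∀ x : k, (bk.repr x).support ⊆ s → x = ∑ β ∈ s, bk β * algebraMap ℚ k (bk.repr x β) := by
    intro x hx
    conv_lhs => rw [← bk.linearCombination_repr x]
    rw [Finsupp.linearCombination_apply, Finsupp.sum_of_support_subset _ hx _ (by simp)]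
    refine Finset.sum_congr rfl fun β _ => ?_
    rw [Algebra.smul_def, mul_comm]
  refine ⟨s, D, ?_, ?_⟩
  · ext i j
    rw [Matrix.sum_apply]
    refine (hrep (A i j) ?_).trans (Finset.sum_congr rfl fun β _ => by simp [D])
    intro β hβ
    exact Finset.mem_union_left _ (Finset.mem_biUnion.2 ⟨i, Finset.mem_univ _,
      Finset.mem_biUnion.2 ⟨j, Finset.mem_univ _, hβ⟩⟩)
  · ext i j
    rw [Matrix.sum_apply]
    refine (hrep (B i j) ?_).trans (Finset.sum_congr rfl fun β _ => by simp [D])
    intro β hβ
    exact Finset.mem_union_right _ (Finset.mem_biUnion.2 ⟨i, Finset.mem_univ _,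
      Finset.mem_biUnion.2 ⟨j, Finset.mem_univ _, hβ⟩⟩)

/-- a basis of the rational derivations spans the derivations over every extension -/
theorem der_coords {k : Type*} [Field k] [Algebra ℚ k] (γ : S → S → E → ℚ)
    {r : ℕ} (d : Module.Basis (Fin r) ℚ (derQ γ))
    {A : Matrix S S k} {B : Matrix E E k} (h : IsDer (bc (algebraMap ℚ k) γ) A B) :
    ∃ c : Fin r → k,
      A = ∑ t, c t • ((d t).1.1).map (algebraMap ℚ k) ∧
      B = ∑ t, c t • ((d t).1.2).map (algebraMap ℚ k) := by
  obtain ⟨s, D, hA, hB⟩ := der_base_change γ h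
  refine ⟨fun t => ∑ β ∈ s, Module.Free.chooseBasis ℚ k β * algebraMap ℚ k (d.repr (D β) t), ?_, ?_⟩
  · rw [hA]
    have h1 : ∀ β, ((D β).1.1).map (algebraMap ℚ k) =
        ∑ t, algebraMap ℚ k (d.repr (D β) t) • ((d t).1.1).map (algebraMap ℚ k) := by
      intro β
      have h2 := d.sum_repr (D β)
      have h3 : ((D β).1.1) = ∑ t, d.repr (D β) t • (d t).1.1 := by
        have h5 := congrArg (fun z : derQ γ => z.1.1) h2
        simp only [AddSubmonoidClass.coe_finsetSum, SetLike.val_smul, Prod.fst_sum,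
          Prod.smul_fst] at h5
        exact h5.symm
      ext i j
      have h4 := congrArg (algebraMap ℚ k) (congrFun (congrFun h3 i) j)
      rw [Matrix.sum_apply] at h4
      rw [Matrix.sum_apply]
      rw [Matrix.map_apply, h4, map_sum]
      refine Finset.sum_congr rfl fun t _ => ?_
      rw [Matrix.smul_apply, smul_eq_mul, map_mul, Matrix.smul_apply, smul_eq_mul, Matrix.map_apply]
    simp only [h1, Finset.smul_sum, Finset.sum_smul, smul_smul]
    rw [Finset.sum_comm]
  · rw [hB]
    have h1 : ∀ β, ((D β).1.2).map (algebraMap ℚ k) =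
        ∑ t, algebraMap ℚ k (d.repr (D β) t) • ((d t).1.2).map (algebraMap ℚ k) := by
      intro β
      have h2 := d.sum_repr (D β)
      have h3 : ((D β).1.2) = ∑ t, d.repr (D β) t • (d t).1.2 := by
        have h5 := congrArg (fun z : derQ γ => z.1.2) h2
        simp only [AddSubmonoidClass.coe_finsetSum, SetLike.val_smul, Prod.snd_sum,
          Prod.smul_snd] at h5
        exact h5.symm
      ext i j
      have h4 := congrArg (algebraMap ℚ k) (congrFun (congrFun h3 i) j)
      rw [Matrix.sum_apply] at h4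
      rw [Matrix.sum_apply]
      rw [Matrix.map_apply, h4, map_sum]
      refine Finset.sum_congr rfl fun t _ => ?_
      rw [Matrix.smul_apply, smul_eq_mul, map_mul, Matrix.smul_apply, smul_eq_mul, Matrix.map_apply]
    simp only [h1, Finset.smul_sum, Finset.sum_smul, smul_smul]
    rw [Finset.sum_comm]

end

end Pool.Agent.P8H59.An
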