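import Pool.Agent.P8H59.An.Approx
import Pool.Agent.P8H57.An.NEC
import Pool.Agent.P8H43.An.FIN
import Pool.Agent.P8H43.An.PERT
import Pool.Agent.P8H43.An.REAL
import Pool.Agent.P8H48.An.FFM
import Pool.Agent.P8H48.An.PAD
import Pool.Agent.P8H48.An.UNI
import Pool.Agent.P8H72.An.LIE

/-!
# Assembly (for S04415)
-/

set_option autoImplicit false

open Matrix Polynomial
open scoped TensorProduct

namespace Pool.Agent.P8H59.An

theorem adj_inf_sup {n : ℕ} (G : SimpleGraph (Fin n)) (e : G.edgeSet) :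
    G.Adj e.1.inf e.1.sup := by
  rcases e with ⟨e, he⟩
  induction e with
  | h a b =>
    rw [SimpleGraph.mem_edgeSet] at he
    simp only [Sym2.inf_mk, Sym2.sup_mk]
    rcases le_total a b with h | h
    · rwa [inf_eq_left.2 h, sup_eq_right.2 h]
    · rw [inf_eq_right.2 h, sup_eq_left.2 h]
      exact he.symm

theorem anosov_of_anosov (n : ℕ) (G : SimpleGraph (Fin n)) (N : Type) [LieRing N] [LieAlgebra ℚ N]
      [FiniteDimensional ℚ N] (b : Module.Basis (Fin n ⊕ G.edgeSet) ℚ N)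
      (hb1 : ∀ (i j : Fin n) (h : G.Adj i j), i < j →
          ⁅b (Sum.inl i), b (Sum.inl j)⁆ = b (Sum.inr ⟨s(i, j), G.mem_edgeSet.mpr h⟩))
      (hb2 : ∀ i j : Fin n, ¬ G.Adj i j → ⁅b (Sum.inl i), b (Sum.inl j)⁆ = 0)
      (hb3 : ∀ (e : G.edgeSet) (k : Fin n ⊕ G.edgeSet), ⁅b (Sum.inr e), b k⁆ = 0)
      (hf : ∃ f : N ≃ₗ⁅ℚ⁆ N, ∃ p : Polynomial ℤ,
          p.map (Int.castRingHom ℚ) = LinearMap.charpoly f.toLinearEquiv.toLinearMap ∧
          (p.coeff 0 = 1 ∨ p.coeff 0 = -1) ∧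
          ∀ z : ℂ, (p.map (Int.castRingHom ℂ)).IsRoot z → ‖z‖ ≠ 1)
      (M : Type) [LieRing M] [LieAlgebra ℚ M] [FiniteDimensional ℚ M]
      (hM : Nonempty ((ℝ ⊗[ℚ] M) ≃ₗ⁅ℝ⁆ (ℝ ⊗[ℚ] N))) :
        ∃ g : M ≃ₗ⁅ℚ⁆ M, ∃ q : Polynomial ℤ,
          q.map (Int.castRingHom ℚ) = LinearMap.charpoly g.toLinearEquiv.toLinearMap ∧
          (q.coeff 0 = 1 ∨ q.coeff 0 = -1) ∧
          ∀ z : ℂ, (q.map (Int.castRingHom ℂ)).IsRoot z → ‖z‖ ≠ 1 := by
  classical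
  have hC : Cond G := Pool.Agent.P8H57.An.nec n G N b hb1 hb2 hb3 hf
  have : Finite G.edgeSet := inferInstance
  let _ : Fintype G.edgeSet := Fintype.ofFinite _
  obtain ⟨c, γ, P, P', Q, Q', hc1, hc2, hspan, e1, e2, e3, e4, hm⟩ :=
    Pool.Agent.P8H72.An.lie n G N b hb1 hb2 hb3 M hM
  obtain ⟨A, B, hd, hF1, hF2, T, ξ, υ, hT, hξ, hυ⟩ :=
    exists_der G Pool.Agent.P8H48.An.ffm Pool.Agent.P8H48.An.pad Pool.Agent.P8H43.An.pert hC
      e1 e2 e3 e4 hm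
  have hanti : ∀ i j e, γ i j e = - γ j i e := by
    intro i j e
    have h1 : ⁅c (Sum.inl i), c (Sum.inl j)⁆ = -⁅c (Sum.inl j), c (Sum.inl i)⁆ :=
      (lie_skew _ _).symm
    rw [hc1, hc1] at h1
    have h2 : ∀ δ : G.edgeSet → ℚ, c.repr (∑ f, δ f • c (Sum.inr f)) (Sum.inr e) = δ e := by
      intro δ
      rw [map_sum, Finsupp.finsetSum_apply, Finset.sum_eq_single e]
      · simp
      · intro f _ hf
        simp [hf]
      · simp
    have h3 := congrArg (fun z => c.repr z (Sum.inr e)) h1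
    simp only [map_neg, Finsupp.neg_apply, h2] at h3
    exact h3
  obtain ⟨hinj, hcp, hR3, hR4⟩ :=
    Pool.Agent.P8H43.An.real n G γ hspan hanti A B hd T ξ υ hT hξ hυ
  set x : Fin n → ℝ := fun i => T * ξ i with hx
  have hroot : ∀ i, aeval (x i) A.charpoly = 0 := by
    intro i
    have := (hξ i).2
    rw [Polynomial.IsRoot, Polynomial.eval_map_algebraMap] at this
    exact this
  have hint : ∀ i, IsIntegral ℚ (x i) := fun i =>
    ⟨A.charpoly, Matrix.charpoly_monic A, hroot i⟩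
  have hsf : Squarefree A.charpoly := by
    have h1 : (A.charpoly.map (algebraMap ℚ ℝ)).Separable := by
      rw [hcp, Polynomial.separable_prod_X_sub_C_iff]
      exact hinj
    exact ((Polynomial.separable_map (algebraMap ℚ ℝ)).1 h1).squarefree
  have hdeg : ∀ i, 2 ≤ (minpoly ℚ (x i)).natDegree := fun i =>
    hF1 _ (minpoly.irreducible (hint i)) (minpoly.dvd ℚ _ (hroot i))
  have hadj : ∀ i j, G.Adj i j → minpoly ℚ (x i) = minpoly ℚ (x j) →
      3 ≤ (minpoly ℚ (x i)).natDegree := by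
    intro i j hij hmin
    by_contra hlt
    have h1 : (minpoly ℚ (x i)).natDegree = 2 := by
      have := hdeg i
      omega
    obtain ⟨h, hh⟩ := minpoly.dvd ℚ _ (hroot i)
    refine hR3 i j hij (minpoly ℚ (x i)) h hh (minpoly.aeval ℚ _) ?_
      (hF2 _ h (minpoly.irreducible (hint i)) (minpoly.monic (hint i)) h1 hh hsf)
    rw [hmin]
    exact minpoly.aeval ℚ _
  obtain ⟨h, hh1, hh2⟩ := Pool.Agent.P8H48.An.uni n G A.charpoly x hinj hcp hdeg hadj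
  obtain ⟨Z, hZ1, hZ2, hZ3⟩ := hR4 h
  refine Pool.Agent.P8H43.An.fin n G.edgeSet M c γ hc1 hc2 (aeval A h) Z _ _ hZ1 hZ2 hZ3 hh1 ?_
  intro e
  refine ⟨(hh1 _).1.mul (hh1 _).1, ?_, mul_ne_zero (hh1 _).2.2.1 (hh1 _).2.2.1,
    hh2 _ _ (adj_inf_sup G e)⟩
  rw [mul_inv]
  exact (hh1 _).2.1.mul (hh1 _).2.1

end Pool.Agent.P8H59.An
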