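import Pool.Agent.P8H59.An.Basic

/-!
# MP_3d22c5_an (S04415): statements of the packages, second part
-/

set_option autoImplicit false

open Polynomial Matrix
open scoped TensorProduct

namespace Pool.Agent.P8H59.An

/-- the structure constants of the graph Lie algebra: `gam G i j e = ±1` if `e = {i, j}`, with sign
`+` for `i < j`. -/
def gam {n : ℕ} (G : SimpleGraph (Fin n)) : Fin n → Fin n → G.edgeSet → ℚ :=
  fun i j e => if s(i, j) = e.1 then (if i < j then 1 else -1) else 0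

/-- Package LIE: a rational Lie algebra with the real form of the graph Lie algebra has an adapted basis
with structure constants `γ`, which become isomorphic to those of the graph over `ℝ`. -/
def S_LIE : Prop :=
  ∀ (n : ℕ) (G : SimpleGraph (Fin n)) [Fintype G.edgeSet] [DecidableEq G.edgeSet]
      (N : Type) [LieRing N] [LieAlgebra ℚ N]
      [FiniteDimensional ℚ N] (b : Module.Basis (Fin n ⊕ G.edgeSet) ℚ N),
      (∀ (i j : Fin n) (h : G.Adj i j), i < j →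
          ⁅b (Sum.inl i), b (Sum.inl j)⁆ = b (Sum.inr ⟨s(i, j), G.mem_edgeSet.mpr h⟩)) →
      (∀ i j : Fin n, ¬ G.Adj i j → ⁅b (Sum.inl i), b (Sum.inl j)⁆ = 0) →
      (∀ (e : G.edgeSet) (k : Fin n ⊕ G.edgeSet), ⁅b (Sum.inr e), b k⁆ = 0) →
      ∀ (M : Type) [LieRing M] [LieAlgebra ℚ M] [FiniteDimensional ℚ M],
        Nonempty ((ℝ ⊗[ℚ] M) ≃ₗ⁅ℝ⁆ (ℝ ⊗[ℚ] N)) →
        ∃ (c : Module.Basis (Fin n ⊕ G.edgeSet) ℚ M) (γ : Fin n → Fin n → G.edgeSet → ℚ)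
          (P P' : Matrix (Fin n) (Fin n) ℝ) (Q Q' : Matrix G.edgeSet G.edgeSet ℝ),
          (∀ i j, ⁅c (Sum.inl i), c (Sum.inl j)⁆ = ∑ e, γ i j e • c (Sum.inr e)) ∧
          (∀ e k, ⁅c (Sum.inr e), c k⁆ = 0) ∧
          Submodule.span ℚ (Set.range fun ij : Fin n × Fin n => γ ij.1 ij.2) = ⊤ ∧
          P' * P = 1 ∧ P * P' = 1 ∧ Q' * Q = 1 ∧ Q * Q' = 1 ∧
          IsHm (bc (algebraMap ℚ ℝ) γ) (bc (algebraMap ℚ ℝ) (gam G)) P Q

/-- Package FIN: an automorphism `(U, Z)` of the structure constants `γ` of `M` all of whose real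
eigenvalues are units of absolute value `≠ 1` gives an Anosov automorphism of `M`. -/
def S_FIN : Prop :=
  ∀ (n : ℕ) (E : Type) [Fintype E] [DecidableEq E]
      (M : Type) [LieRing M] [LieAlgebra ℚ M] [FiniteDimensional ℚ M]
      (c : Module.Basis (Fin n ⊕ E) ℚ M) (γ : Fin n → Fin n → E → ℚ),
      (∀ i j, ⁅c (Sum.inl i), c (Sum.inl j)⁆ = ∑ e, γ i j e • c (Sum.inr e)) →
      (∀ e k, ⁅c (Sum.inr e), c k⁆ = 0) →
      ∀ (U : Matrix (Fin n) (Fin n) ℚ) (Z : Matrix E E ℚ) (u : Fin n → ℝ) (z : E → ℝ),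
        IsHm γ γ U Z →
        U.charpoly.map (algebraMap ℚ ℝ) = ∏ i, (X - C (u i)) →
        Z.charpoly.map (algebraMap ℚ ℝ) = ∏ e, (X - C (z e)) →
        (∀ i, IsIntegral ℤ (u i) ∧ IsIntegral ℤ (u i)⁻¹ ∧ u i ≠ 0 ∧ |u i| ≠ 1) →
        (∀ e, IsIntegral ℤ (z e) ∧ IsIntegral ℤ (z e)⁻¹ ∧ z e ≠ 0 ∧ |z e| ≠ 1) →
        ∃ g : M ≃ₗ⁅ℚ⁆ M, ∃ q : Polynomial ℤ,
          q.map (Int.castRingHom ℚ) = LinearMap.charpoly g.toLinearEquiv.toLinearMap ∧
          (q.coeff 0 = 1 ∨ q.coeff 0 = -1) ∧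
          ∀ z : ℂ, (q.map (Int.castRingHom ℂ)).IsRoot z → ‖z‖ ≠ 1

/-- Package PERT: matrices near a diagonal matrix with distinct integral entries have real
eigenvalues near these entries. -/
def S_PERT : Prop :=
  ∀ (ι : Type) [Fintype ι] [DecidableEq ι] (τ : ι → ℕ), Function.Injective τ →
    ∀ᶠ A in nhds (Matrix.diagonal fun i => (τ i : ℝ)),
      ∀ i, ∃ ξ : ℝ, |ξ - τ i| < 1 / 10 ∧ A.charpoly.IsRoot ξ

end Pool.Agent.P8H59.An
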