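import Pool.Agent.P8H59.An.Basic
import Pool.Agent.P8H59.An.Stm
import Pool.Agent.P8H59.An.Stm2

/-!
# The graph structure constants: derivations and the preorder (for S04415)
-/

set_option autoImplicit false
set_option linter.unusedSectionVars false

open Matrix

namespace Pool.Agent.P8H59.An

variable {n : ℕ} (G : SimpleGraph (Fin n))

theorem Le.refl (v : Fin n) : Le G v v := fun _ h => Or.inr h

theorem Le.trans {x y z : Fin n} (h1 : Le G x y) (h2 : Le G y z) : Le G x z := by
  intro u hu
  rcases h1 u hu with rfl | h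
  · -- `u = y` is adjacent to `x`
    rcases h2 x hu.symm with h3 | h3
    · exact Or.inr (h3 ▸ hu)
    · rcases h1 z h3.symm with h4 | h4
      · exact Or.inl h4.symm
      · exact Or.inr h4.symm
  · exact h2 u h

theorem Twin.refl (v : Fin n) : Twin G v v := ⟨Le.refl G v, Le.refl G v⟩

theorem Twin.symm {v w : Fin n} (h : Twin G v w) : Twin G w v := ⟨h.2, h.1⟩

theorem Twin.trans {u v w : Fin n} (h : Twin G u v) (h' : Twin G v w) : Twin G u w :=
  ⟨Le.trans G h.1 h'.1, Le.trans G h'.2 h.2⟩

/-- below a non-adjacent twin pair there are no edges -/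
theorem no_edge_below {v w : Fin n} (hvw : v ≠ w) (ht : Twin G v w) (hn : ¬ G.Adj v w)
    {i j : Fin n} (hi : Le G i v) (hj : Le G j v) : ¬ G.Adj i j := by
  intro hij
  have hjw : Le G j w := Le.trans G hj ht.1
  rcases hi j hij with rfl | h
  · rcases ht.1 i hij.symm with rfl | h
    · exact hn hij.symm
    · rcases hi w h.symm with h' | h'
      · exact hvw h'.symm
      · exact hn h'
  · rcases hjw v h.symm with h' | h'
    · exact hvw h'
    · exact hn h'.symm

section gam

variable [Fintype G.edgeSet] [DecidableEq G.edgeSet]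
variable {k : Type*} [CommRing k] (φ : ℚ →+* k)

theorem gam_apply (i j : Fin n) (e : G.edgeSet) :
    bc φ (gam G) i j e = if s(i, j) = e.1 then (if i < j then 1 else -1) else 0 := by
  simp only [bc, gam]
  split_ifs <;> simp

theorem gam_not_adj {i j : Fin n} (h : ¬ G.Adj i j) (e : G.edgeSet) :
    bc φ (gam G) i j e = 0 := by
  rw [gam_apply, if_neg]
  intro he
  exact h (by have := e.2; rw [← he, SimpleGraph.mem_edgeSet] at this; exact this)

theorem gam_ne {i j : Fin n} {e : G.edgeSet} (h : s(i, j) ≠ e.1) : bc φ (gam G) i j e = 0 := by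
  rw [gam_apply, if_neg h]

theorem gam_swap (i j : Fin n) (e : G.edgeSet) :
    bc φ (gam G) i j e = - bc φ (gam G) j i e := by
  by_cases hij : i = j
  · subst hij
    have : ¬ G.Adj i i := G.irrefl
    rw [gam_not_adj G φ this, neg_zero]
  · rw [gam_apply, gam_apply, Sym2.eq_swap]
    by_cases h : s(j, i) = e.1
    · rw [if_pos h, if_pos h]
      rcases lt_or_gt_of_ne hij with h1 | h1
      · rw [if_pos h1, if_neg (not_lt.2 h1.le), neg_neg]
      · rw [if_neg (not_lt.2 h1.le), if_pos h1]
    · rw [if_neg h, if_neg h, neg_zero]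

theorem gam_adj {i j : Fin n} (h : G.Adj i j) :
    bc φ (gam G) i j ⟨s(i, j), G.mem_edgeSet.2 h⟩ = 1 ∨
      bc φ (gam G) i j ⟨s(i, j), G.mem_edgeSet.2 h⟩ = -1 := by
  rw [gam_apply, if_pos rfl]
  split_ifs
  · exact Or.inl rfl
  · exact Or.inr rfl

/-- a matrix which only mixes twins is part of a derivation -/
theorem exists_isDer_of_twin (A : Matrix (Fin n) (Fin n) k) (hA : ∀ i j, A i j ≠ 0 → Twin G i j) :
    ∃ B, IsDer (bc φ (gam G)) A B := by
  classical
  set γ := bc φ (gam G) with hγ
  let B : Matrix G.edgeSet G.edgeSet k := fun e f =>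
    ∑ l, A l f.1.inf * γ l f.1.sup e + ∑ l, A l f.1.sup * γ f.1.inf l e
  refine ⟨B, ?_⟩
  rw [isDer_iff]
  have key : ∀ i j e, i < j → ∑ l, A l i * γ l j e + ∑ l, A l j * γ i l e = ∑ f, B e f * γ i j f := by
    intro i j e hij
    by_cases h : G.Adj i j
    · rw [Finset.sum_eq_single (⟨s(i, j), G.mem_edgeSet.2 h⟩ : G.edgeSet)]
      · have h1 : γ i j ⟨s(i, j), G.mem_edgeSet.2 h⟩ = 1 := by
          rw [hγ, gam_apply, if_pos rfl, if_pos hij]
        rw [h1, mul_one]
        simp only [B, Sym2.inf_mk, Sym2.sup_mk, inf_eq_left.2 hij.le, sup_eq_right.2 hij.le]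
      · intro f _ hf
        rw [hγ, gam_ne, mul_zero]
        intro h2
        exact hf (Subtype.ext h2.symm)
      · simp
    · have h0 : ∑ f, B e f * γ i j f = 0 := by
        refine Finset.sum_eq_zero fun f _ => ?_
        rw [hγ, gam_not_adj G φ h, mul_zero]
      rw [h0]
      have h1 : ∀ l, A l i * γ l j e = 0 := by
        intro l
        by_cases hl : A l i = 0
        · rw [hl, zero_mul]
        · have ht := hA l i hl
          rw [hγ, gam_not_adj, mul_zero]
          intro hlj
          rcases ht.1 j hlj with h2 | h2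
          · exact hij.ne' h2
          · exact h h2
      have h2 : ∀ l, A l j * γ i l e = 0 := by
        intro l
        by_cases hl : A l j = 0
        · rw [hl, zero_mul]
        · have ht := hA l j hl
          rw [hγ, gam_not_adj, mul_zero]
          intro hil
          rcases ht.1 i hil.symm with h2 | h2
          · exact hij.ne h2
          · exact h h2.symm
      simp only [h1, h2, Finset.sum_const_zero, add_zero]
  intro i j e
  rcases lt_trichotomy i j with h | h | h
  · exact key i j e h
  · subst h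
    have h0 : ∑ f, B e f * γ i i f = 0 := by
      refine Finset.sum_eq_zero fun f _ => ?_
      rw [hγ, gam_not_adj G φ (G.irrefl), mul_zero]
    rw [h0, ← Finset.sum_add_distrib]
    refine Finset.sum_eq_zero fun l _ => ?_
    rw [hγ, gam_swap G φ i l, mul_neg, add_neg_cancel]
  · have h1 := key j i e h
    have h2 : ∑ f, B e f * γ i j f = - ∑ f, B e f * γ j i f := by
      rw [← Finset.sum_neg_distrib]
      refine Finset.sum_congr rfl fun f _ => ?_
      rw [hγ, gam_swap G φ i j, mul_neg]
    have h3 : ∑ l, A l i * γ l j e = - ∑ l, A l i * γ j l e := by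
      rw [← Finset.sum_neg_distrib]
      refine Finset.sum_congr rfl fun f _ => ?_
      rw [hγ, gam_swap G φ f j, mul_neg]
    have h4 : ∑ l, A l j * γ i l e = - ∑ l, A l j * γ l i e := by
      rw [← Finset.sum_neg_distrib]
      refine Finset.sum_congr rfl fun f _ => ?_
      rw [hγ, gam_swap G φ i f, mul_neg]
    rw [h2, h3, h4, ← h1]
    ring

/-- derivations of the graph structure are triangular for the preorder -/
theorem le_of_isDer [NoZeroDivisors k] [Nontrivial k] {A : Matrix (Fin n) (Fin n) k}
    {B : Matrix G.edgeSet G.edgeSet k}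
    (h : IsDer (bc φ (gam G)) A B) {l i : Fin n} (hli : A l i ≠ 0) : Le G l i := by
  rw [isDer_iff] at h
  intro u hlu
  by_contra hcon
  push Not at hcon
  obtain ⟨hui, hiu⟩ := hcon
  by_cases hl : l = i
  · subst hl
    exact hiu hlu
  set e : G.edgeSet := ⟨s(l, u), G.mem_edgeSet.2 hlu⟩ with he
  have h1 := h i u e
  have h0 : ∑ f, B e f * bc φ (gam G) i u f = 0 := by
    refine Finset.sum_eq_zero fun f _ => ?_
    rw [gam_not_adj G φ hiu, mul_zero]
  have h2 : ∑ m, A m i * bc φ (gam G) m u e = A l i * bc φ (gam G) l u e := by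
    refine Finset.sum_eq_single l (fun m _ hm => ?_) (by simp)
    rw [gam_ne, mul_zero]
    intro h3
    rw [he] at h3
    simp only [Sym2.eq_iff] at h3
    rcases h3 with ⟨h4, -⟩ | ⟨h4, h5⟩
    · exact hm h4
    · exact hm (h4.trans h5)
  have h3 : ∑ m, A m u * bc φ (gam G) i m e = 0 := by
    refine Finset.sum_eq_zero fun m _ => ?_
    rw [gam_ne, mul_zero]
    intro h3
    rw [he] at h3
    simp only [Sym2.eq_iff] at h3
    rcases h3 with ⟨h4, -⟩ | ⟨h4, h5⟩
    · exact hl h4.symm
    · exact hui h4.symm
  rw [h0, h2, h3, add_zero] at h1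
  rcases mul_eq_zero.1 h1 with h4 | h4
  · exact hli h4
  · rcases gam_adj G φ hlu with h5 | h5
    · rw [he, h5] at h4
      exact one_ne_zero h4
    · rw [he, h5] at h4
      exact one_ne_zero (neg_eq_zero.1 h4)

end gam

end Pool.Agent.P8H59.An
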