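import Pool.Agent.P8H59.An.Graph

/-!
# The `p`-adic side (for S04415)
-/

set_option autoImplicit false
set_option linter.unusedSectionVars false

open Matrix Polynomial

namespace Pool.Agent.P8H59.An

open Classical in
/-- the level of a vertex: a linear extension of the preorder, with the twin classes as fibres -/
noncomputable def lev {n : ℕ} (G : SimpleGraph (Fin n)) (v : Fin n) : ℕ ×ₗ Fin n :=
  toLex ((Finset.univ.filter fun j => Le G j v).card,
    (Finset.univ.filter fun j => Twin G v j).min' ⟨v, by simp [Twin.refl G v]⟩)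

section

variable {n : ℕ} (G : SimpleGraph (Fin n))

theorem twin_of_lev_eq {i j : Fin n} (h : lev G i = lev G j) : Twin G i j := by
  classical
  have h1 := congrArg Prod.snd (toLex.injective h)
  simp only at h1
  have h2 := Finset.min'_mem (Finset.univ.filter fun l => Twin G i l) ⟨i, by simp [Twin.refl G i]⟩
  have h3 := Finset.min'_mem (Finset.univ.filter fun l => Twin G j l) ⟨j, by simp [Twin.refl G j]⟩
  rw [Finset.mem_filter] at h2 h3
  rw [h1] at h2
  exact h2.2.trans G h3.2.symm

theorem lev_eq_of_twin {i j : Fin n} (h : Twin G i j) : lev G i = lev G j := by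
  classical
  have h1 : (Finset.univ.filter fun l => Le G l i) = Finset.univ.filter fun l => Le G l j := by
    ext l
    simp only [Finset.mem_filter, Finset.mem_univ, true_and]
    exact ⟨fun h' => h'.trans G h.1, fun h' => h'.trans G h.2⟩
  have h2 : (Finset.univ.filter fun l => Twin G i l) = Finset.univ.filter fun l => Twin G j l := by
    ext l
    simp only [Finset.mem_filter, Finset.mem_univ, true_and]
    exact ⟨fun h' => (h.symm G).trans G h', fun h' => h.trans G h'⟩
  unfold lev
  congr 1
  refine Prod.ext (by simp only [h1]) ?_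
  simp only [h2]

theorem lev_le_of_le {i j : Fin n} (h : Le G i j) : lev G i ≤ lev G j := by
  classical
  by_cases hji : Le G j i
  · exact (lev_eq_of_twin G ⟨h, hji⟩).le
  · refine le_of_lt ?_
    rw [Prod.Lex.lt_iff]
    left
    change (Finset.univ.filter fun l => Le G l i).card < (Finset.univ.filter fun l => Le G l j).card
    refine Finset.card_lt_card ?_
    rw [Finset.ssubset_iff_of_subset]
    · refine ⟨j, by simp [Le.refl G j], by simp [hji]⟩
    · intro l hl
      simp only [Finset.mem_filter, Finset.mem_univ, true_and] at hl ⊢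
      exact hl.trans G h

theorem lev_eq_iff {i j : Fin n} : lev G i = lev G j ↔ Twin G i j :=
  ⟨twin_of_lev_eq G, lev_eq_of_twin G⟩

end

section Irr

variable {p : ℕ} [hp : Fact p.Prime] {n : ℕ}

/-- matrices over `ℤ_p` with irreducible reduction of the characteristic polynomial -/
theorem irreducible_of_reduction {ι : Type*} [Fintype ι] [DecidableEq ι]
    (A : Matrix ι ι ℤ_[p]) (h : Irreducible (A.map (PadicInt.toZMod (p := p))).charpoly) :
    Irreducible (A.map (algebraMap ℤ_[p] ℚ_[p])).charpoly := by
  rw [Matrix.charpoly_map] at h ⊢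
  have h1 : Irreducible A.charpoly :=
    (Matrix.charpoly_monic A).irreducible_of_irreducible_map _ _ h
  exact ((Matrix.charpoly_monic A).irreducible_iff_irreducible_map_fraction_map).1 h1

theorem toZMod_eq {x y : ℤ_[p]} (h : ‖x - y‖ < 1) :
    PadicInt.toZMod x = PadicInt.toZMod y := by
  rw [← sub_eq_zero, ← map_sub, ← RingHom.mem_ker, PadicInt.ker_toZMod,
    IsLocalRing.mem_maximalIdeal, PadicInt.mem_nonunits]
  exact h

end Irr

section Target

variable {p : ℕ} [hp : Fact p.Prime] {n : ℕ} (G : SimpleGraph (Fin n))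

/-- the target matrix: blocks with irreducible characteristic polynomial -/
theorem exists_target (hF : S_FFM) :
    ∃ A₀ : Matrix (Fin n) (Fin n) ℚ_[p], (∀ i j, A₀ i j ≠ 0 → Twin G i j) ∧
      ∀ A : Matrix (Fin n) (Fin n) ℚ_[p], (∀ i j, ‖A i j - A₀ i j‖ < 1) →
        ∀ v, Irreducible (A.toSquareBlock (lev G) (lev G v)).charpoly := by
  classical
  have h1 : ∀ a : ℕ ×ₗ Fin n, ∃ B : Matrix {i // lev G i = a} {i // lev G i = a} (ZMod p),
      Nonempty {i // lev G i = a} → Irreducible B.charpoly := by
    intro a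
    by_cases hn : Nonempty {i // lev G i = a}
    · obtain ⟨B, hB⟩ := hF p {i // lev G i = a}
      exact ⟨B, fun _ => hB⟩
    · exact ⟨0, fun h => (hn h).elim⟩
  choose B hB using h1
  let Ab : Matrix (Fin n) (Fin n) (ZMod p) := fun i j =>
    if h : lev G i = lev G j then B (lev G j) ⟨i, h⟩ ⟨j, rfl⟩ else 0
  have hblock : ∀ a, Ab.toSquareBlock (lev G) a = B a := by
    intro a
    ext ⟨i, hi⟩ ⟨j, hj⟩
    subst hj
    exact dif_pos hi
  let A₀ : Matrix (Fin n) (Fin n) ℤ_[p] := fun i j => (((Ab i j).val : ℕ) : ℤ_[p])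
  refine ⟨fun i j => ((A₀ i j : ℤ_[p]) : ℚ_[p]), ?_, ?_⟩
  · intro i j hij
    by_contra hcon
    apply hij
    have h2 : Ab i j = 0 := by
      exact dif_neg fun h3 => hcon (twin_of_lev_eq G h3)
    simp only [A₀, h2, ZMod.val_zero, Nat.cast_zero, PadicInt.coe_zero]
  · intro A hA v
    have hnorm : ∀ i j, ‖A i j‖ ≤ 1 := by
      intro i j
      have h2 : A i j = (A i j - A₀ i j) + (A₀ i j : ℚ_[p]) := by ring
      rw [h2]
      refine (Padic.nonarchimedean _ _).trans (max_le (hA i j).le (A₀ i j).2)
    let Ai : Matrix (Fin n) (Fin n) ℤ_[p] := fun i j => ⟨A i j, hnorm i j⟩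
    have hred : ∀ i j, PadicInt.toZMod (Ai i j) = Ab i j := by
      intro i j
      have h2 : PadicInt.toZMod (Ai i j) = PadicInt.toZMod (A₀ i j) := by
        apply toZMod_eq
        have := hA i j
        rw [PadicInt.norm_def, PadicInt.coe_sub]
        exact this
      rw [h2]
      simp only [A₀, map_natCast, ZMod.natCast_zmod_val]
    have h3 : Irreducible ((Ai.toSquareBlock (lev G) (lev G v)).map
        (PadicInt.toZMod (p := p))).charpoly := by
      have h4 : (Ai.toSquareBlock (lev G) (lev G v)).map (PadicInt.toZMod (p := p)) =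
          B (lev G v) := by
        rw [← hblock]
        ext ⟨i, hi⟩ ⟨j, hj⟩
        simp only [Matrix.toSquareBlock_def, Matrix.of_apply, Matrix.map_apply]
        exact hred i j
      rw [h4]
      exact hB _ ⟨⟨v, rfl⟩⟩
    have h5 := irreducible_of_reduction _ h3
    have h6 : (Ai.toSquareBlock (lev G) (lev G v)).map (algebraMap ℤ_[p] ℚ_[p]) =
        A.toSquareBlock (lev G) (lev G v) := by
      ext ⟨i, hi⟩ ⟨j, hj⟩
      rfl
    rw [h6] at h5
    exact h5

end Target

end Pool.Agent.P8H59.An
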