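import Pool.Agent.P8H59.An.Padic

/-!
# The `p`-adic side, second part: factors of the characteristic polynomial (for S04415)
-/

set_option autoImplicit false
set_option linter.unusedSectionVars false

open Matrix Polynomial

namespace Pool.Agent.P8H59.An

section General

variable {S E : Type*} [Fintype S] [Fintype E] [DecidableEq S] [DecidableEq E]
variable {k : Type*} [CommRing k]

theorem IsHm.symm {γ γ' : S → S → E → k} {P P' : Matrix S S k} {Q Q' : Matrix E E k}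
    (h : IsHm γ γ' P Q) (hP' : P * P' = 1) (hQ : Q' * Q = 1) : IsHm γ' γ P' Q' := by
  intro a b
  have h1 := h (P' *ᵥ a) (P' *ᵥ b)
  rw [Matrix.mulVec_mulVec, Matrix.mulVec_mulVec, hP', Matrix.one_mulVec, Matrix.one_mulVec] at h1
  rw [← h1, Matrix.mulVec_mulVec, hQ, Matrix.one_mulVec]

theorem aeval_restrict {ι κ : Type*} [Fintype ι] [DecidableEq ι] [Fintype κ] [DecidableEq κ]
    (A : Matrix ι ι k) (A' : Matrix κ κ k) (π : (ι → k) →ₗ[k] (κ → k)) (Y : Submodule k (ι → k))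
    (hY : ∀ ζ ∈ Y, A *ᵥ ζ ∈ Y) (hπ : ∀ ζ ∈ Y, π (A *ᵥ ζ) = A' *ᵥ π ζ) (q : k[X]) :
    ∀ ζ ∈ Y, aeval A q *ᵥ ζ ∈ Y ∧ π (aeval A q *ᵥ ζ) = aeval A' q *ᵥ π ζ := by
  have hpow : ∀ m : ℕ, ∀ ζ ∈ Y, (A ^ m) *ᵥ ζ ∈ Y ∧ π ((A ^ m) *ᵥ ζ) = (A' ^ m) *ᵥ π ζ := by
    intro m
    induction m with
    | zero => intro ζ hζ; simpa using hζ
    | succ m ih =>
      intro ζ hζ
      obtain ⟨h1, h2⟩ := ih (A *ᵥ ζ) (hY ζ hζ)
      rw [pow_succ, ← Matrix.mulVec_mulVec]
      refine ⟨h1, ?_⟩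
      rw [h2, hπ ζ hζ, Matrix.mulVec_mulVec, ← pow_succ]
  induction q using Polynomial.induction_on' with
  | add q r hq hr =>
    intro ζ hζ
    obtain ⟨h1, h2⟩ := hq ζ hζ
    obtain ⟨h3, h4⟩ := hr ζ hζ
    rw [map_add, map_add, Matrix.add_mulVec, Matrix.add_mulVec, map_add, h2, h4]
    exact ⟨Y.add_mem h1 h3, rfl⟩
  | monomial m c =>
    intro ζ hζ
    obtain ⟨h1, h2⟩ := hpow m ζ hζ
    rw [aeval_monomial, aeval_monomial, ← Algebra.smul_def, ← Algebra.smul_def,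
      Matrix.smul_mulVec, Matrix.smul_mulVec, map_smul, h2]
    exact ⟨Y.smul_mem c h1, rfl⟩

end General

section

variable {p : ℕ} [hp : Fact p.Prime] {n : ℕ} (G : SimpleGraph (Fin n))
variable [Fintype G.edgeSet] [DecidableEq G.edgeSet]

/-- every irreducible factor has degree at least two -/
def F1 (A : Matrix (Fin n) (Fin n) ℚ) : Prop :=
  ∀ g : ℚ[X], Irreducible g → g ∣ A.charpoly → 2 ≤ g.natDegree

/-- quadratic factors have abelian eigenplanes -/
def F2 {E : Type*} [Fintype E] [DecidableEq E] (γ : Fin n → Fin n → E → ℚ)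
    (A : Matrix (Fin n) (Fin n) ℚ) : Prop :=
  ∀ g h : ℚ[X], Irreducible g → g.Monic → g.natDegree = 2 → A.charpoly = g * h →
    Squarefree A.charpoly →
    ∀ i j, br γ (aeval A h *ᵥ Pi.single i 1) (aeval A h *ᵥ Pi.single j 1) = 0

variable {A : Matrix (Fin n) (Fin n) ℚ_[p]}

theorem block_card (hC : Cond G) (v : Fin n) : 2 ≤ Fintype.card {i // lev G i = lev G v} := by
  obtain ⟨w, hw, ht, -⟩ := hC v
  have : Nontrivial {i // lev G i = lev G v} :=
    ⟨⟨v, rfl⟩, ⟨w, lev_eq_of_twin G (ht.symm G)⟩, fun h => hw (congrArg Subtype.val h).symm⟩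
  exact Fintype.one_lt_card

theorem block_two (hC : Cond G) (v : Fin n) (h : Fintype.card {i // lev G i = lev G v} = 2) :
    ∃ w, v ≠ w ∧ Twin G v w ∧ ¬ G.Adj v w := by
  classical
  obtain ⟨w, hw, ht, hn⟩ := hC v
  refine ⟨w, hw.symm, ht, hn ?_⟩
  intro u hu
  by_contra hcon
  push Not at hcon
  have h3 : ({⟨v, rfl⟩, ⟨w, lev_eq_of_twin G (ht.symm G)⟩,
      ⟨u, lev_eq_of_twin G (hu.symm G)⟩} : Finset {i // lev G i = lev G v}).card ≤ 2 := by
    rw [← h]; exact Finset.card_le_univ _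
  have h5 : ({⟨v, rfl⟩, ⟨w, lev_eq_of_twin G (ht.symm G)⟩,
      ⟨u, lev_eq_of_twin G (hu.symm G)⟩} : Finset {i // lev G i = lev G v}).card = 3 := by
    refine Finset.card_eq_three.2 ⟨_, _, _, ?_, ?_, ?_, rfl⟩
    · intro h4; exact hw (congrArg Subtype.val h4).symm
    · intro h4; exact hcon.1 (congrArg Subtype.val h4).symm
    · intro h4; exact hcon.2 (congrArg Subtype.val h4).symm
  omega

/-- the kernel of `g(A)` lies below the class of `v` -/
theorem supp_below {A : Matrix (Fin n) (Fin n) ℚ_[p]} (hA : ∀ i j, A i j ≠ 0 → Le G i j) (v : Fin n) (g : ℚ_[p][X])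
    (hg : ∀ u, lev G u ≠ lev G v → IsCoprime g (A.toSquareBlock (lev G) (lev G u)).charpoly)
    (ζ : Fin n → ℚ_[p]) (hζ : aeval A g *ᵥ ζ = 0) : ∀ i, ζ i ≠ 0 → Le G i v := by
  classical
  by_contra hcon
  push Not at hcon
  obtain ⟨i₀, hi₀, hi₀v⟩ := hcon
  -- choose a counterexample of maximal level
  obtain ⟨m, hm, hmax⟩ := Finset.exists_max_image
    (Finset.univ.filter fun i => ζ i ≠ 0 ∧ ¬ Le G i v) (lev G) ⟨i₀, by simp [hi₀, hi₀v]⟩
  rw [Finset.mem_filter] at hm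
  obtain ⟨-, hm1, hm2⟩ := hm
  let Y : Submodule ℚ_[p] (Fin n → ℚ_[p]) :=
    { carrier := {x | ∀ i, ¬ Le G i v → lev G m < lev G i → x i = 0}
      add_mem' := by
        intro x y hx hy i h1 h2
        rw [Pi.add_apply, hx i h1 h2, hy i h1 h2, add_zero]
      zero_mem' := fun _ _ _ => rfl
      smul_mem' := by
        intro c x hx i h1 h2
        rw [Pi.smul_apply, hx i h1 h2, smul_zero] }
  let π : (Fin n → ℚ_[p]) →ₗ[ℚ_[p]] ({i // lev G i = lev G m} → ℚ_[p]) :=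
    LinearMap.funLeft ℚ_[p] ℚ_[p] Subtype.val
  have hζY : ζ ∈ Y := by
    intro i h1 h2
    by_contra h3
    exact absurd (hmax i (by simp [h1, h3])) (not_le.2 h2)
  have hYA : ∀ x ∈ Y, A *ᵥ x ∈ Y := by
    intro x hx i h1 h2
    change ∑ j, A i j * x j = 0
    refine Finset.sum_eq_zero fun j _ => ?_
    by_cases hij : A i j = 0
    · rw [hij, zero_mul]
    · have h3 := hA i j hij
      rw [hx j (fun h4 => h1 (h3.trans G h4)) (lt_of_lt_of_le h2 (lev_le_of_le G h3)), mul_zero]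
  have hπ : ∀ x ∈ Y, π (A *ᵥ x) = A.toSquareBlock (lev G) (lev G m) *ᵥ π x := by
    intro x hx
    ext ⟨i, hi⟩
    have h0 : ∑ j, A i j * x j = ∑ j ∈ Finset.univ.filter (fun j => lev G j = lev G m), A i j * x j := by
      symm
      refine Finset.sum_filter_of_ne fun j _ hj => ?_
      have h3 := hA i j (left_ne_zero_of_mul hj)
      have h4 : lev G m ≤ lev G j := hi ▸ lev_le_of_le G h3
      by_contra h5
      apply right_ne_zero_of_mul hj
      refine hx j (fun h6 => hm2 ?_) (lt_of_le_of_ne h4 (Ne.symm h5))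
      exact (twin_of_lev_eq G hi).2.trans G (h3.trans G h6)
    have h6 : ∑ j ∈ Finset.univ.filter (fun j => lev G j = lev G m), A i j * x j =
        ∑ j : {j // lev G j = lev G m}, A i j * x j :=
      Finset.sum_subtype _ (fun j => by simp) _
    exact h0.trans h6
  have h1 := (aeval_restrict A _ π Y hYA hπ g ζ hζY).2
  rw [hζ, map_zero] at h1
  have hmv : lev G m ≠ lev G v := by
    intro h
    exact hm2 (twin_of_lev_eq G h).1
  obtain ⟨u, w, huw⟩ := hg m hmv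
  have h2 : aeval (A.toSquareBlock (lev G) (lev G m)) (u * g + w *
      (A.toSquareBlock (lev G) (lev G m)).charpoly) = 1 := by rw [huw, map_one]
  rw [map_add, map_mul, map_mul, Matrix.aeval_self_charpoly, mul_zero, add_zero] at h2
  have h3 : π ζ = 0 := by
    rw [← Matrix.one_mulVec (π ζ), ← h2, ← Matrix.mulVec_mulVec, ← h1, Matrix.mulVec_zero]
  exact hm1 (congrFun h3 ⟨m, rfl⟩)

end

end Pool.Agent.P8H59.An
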