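import Pool.Agent.P8H59.An.Padic2

/-!
# The `p`-adic side, third part (for S04415)
-/

set_option autoImplicit false
set_option linter.unusedSectionVars false

open Matrix Polynomial Filter Topology

namespace Pool.Agent.P8H59.An

section

variable {p : ℕ} [hp : Fact p.Prime] {n : ℕ} (G : SimpleGraph (Fin n))
variable [Fintype G.edgeSet] [DecidableEq G.edgeSet]

theorem charpoly_blocks {Ap : Matrix (Fin n) (Fin n) ℚ_[p]} (hA : ∀ i j, Ap i j ≠ 0 → Le G i j) :
    Ap.charpoly = ∏ a ∈ Finset.univ.image (lev G), (Ap.toSquareBlock (lev G) a).charpoly := by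
  apply Matrix.BlockTriangular.charpoly
  intro i j hij
  by_contra h
  exact absurd (lev_le_of_le G (hA i j h)) (not_le.2 hij)

theorem F1_of (hC : Cond G) {A : Matrix (Fin n) (Fin n) ℚ} {Ap : Matrix (Fin n) (Fin n) ℚ_[p]}
    (hA : ∀ i j, Ap i j ≠ 0 → Le G i j)
    (hirr : ∀ v, Irreducible (Ap.toSquareBlock (lev G) (lev G v)).charpoly)
    (hcp : A.charpoly.map (algebraMap ℚ ℚ_[p]) = Ap.charpoly) : F1 A := by
  intro g hg hgA
  by_contra hlt
  have h1 : g.natDegree = 1 := by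
    have := hg.natDegree_pos
    omega
  have h2 : g.degree = 1 := by
    rw [Polynomial.degree_eq_natDegree hg.ne_zero, h1]; rfl
  obtain ⟨x, hx⟩ := Polynomial.exists_root_of_degree_eq_one h2
  have h3 : (A.charpoly.map (algebraMap ℚ ℚ_[p])).IsRoot (algebraMap ℚ ℚ_[p] x) := by
    exact (hx.dvd hgA).map
  rw [hcp, charpoly_blocks G hA, Polynomial.IsRoot, Polynomial.eval_prod,
    Finset.prod_eq_zero_iff] at h3
  obtain ⟨a, ha, hroot⟩ := h3
  obtain ⟨v, -, rfl⟩ := Finset.mem_image.1 ha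
  have h4 := Polynomial.degree_eq_one_of_irreducible_of_root (hirr v) hroot
  have h5 : (Ap.toSquareBlock (lev G) (lev G v)).charpoly.natDegree = 1 :=
    Polynomial.natDegree_eq_of_degree_eq_some h4
  rw [Matrix.charpoly_natDegree_eq_dim] at h5
  have h6 := block_card G hC v
  omega

theorem F2_of (hC : Cond G) {γ : Fin n → Fin n → G.edgeSet → ℚ} {A : Matrix (Fin n) (Fin n) ℚ}
    {P P' : Matrix (Fin n) (Fin n) ℚ_[p]} {Q Q' : Matrix G.edgeSet G.edgeSet ℚ_[p]}
    (hP : P' * P = 1) (hQ : Q' * Q = 1)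
    (h : IsHm (bc (algebraMap ℚ ℚ_[p]) γ) (bc (algebraMap ℚ ℚ_[p]) (gam G)) P Q)
    {Ap : Matrix (Fin n) (Fin n) ℚ_[p]} (hAp : Ap = P * A.map (algebraMap ℚ ℚ_[p]) * P')
    (hA : ∀ i j, Ap i j ≠ 0 → Le G i j)
    (hirr : ∀ v, Irreducible (Ap.toSquareBlock (lev G) (lev G v)).charpoly)
    (hcp : A.charpoly.map (algebraMap ℚ ℚ_[p]) = Ap.charpoly) : F2 γ A := by
  classical
  intro g q hg hgm hgd hgq hsf
  set φ := algebraMap ℚ ℚ_[p] with hφ
  have hprod : ∏ a ∈ Finset.univ.image (lev G), (Ap.toSquareBlock (lev G) a).charpoly =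
      g.map φ * q.map φ := by
    rw [← charpoly_blocks G hA, ← hcp, hgq, Polynomial.map_mul]
  have hgpm : (g.map φ).Monic := hgm.map φ
  have hgpd : (g.map φ).natDegree = 2 := by rw [hgm.natDegree_map, hgd]
  have hgpu : ¬ IsUnit (g.map φ) := by
    intro hu
    rw [Polynomial.isUnit_iff_degree_eq_zero] at hu
    have h0 : (g.map φ).natDegree = 0 := Polynomial.natDegree_eq_of_degree_eq_some hu
    omega
  -- a class with `χ = g`
  have hv : ∃ v, ¬ IsCoprime (g.map φ) (Ap.toSquareBlock (lev G) (lev G v)).charpoly := by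
    by_contra hcon
    push Not at hcon
    have h1 : IsCoprime (g.map φ)
        (∏ a ∈ Finset.univ.image (lev G), (Ap.toSquareBlock (lev G) a).charpoly) := by
      refine IsCoprime.prod_right fun a ha => ?_
      obtain ⟨v, -, rfl⟩ := Finset.mem_image.1 ha
      exact hcon v
    rw [hprod] at h1
    exact hgpu (isCoprime_self.1 (IsCoprime.of_mul_right_left h1))
  obtain ⟨v, hv⟩ := hv
  set χ : ℕ ×ₗ Fin n → ℚ_[p][X] := fun a => (Ap.toSquareBlock (lev G) a).charpoly with hχ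
  have hdvd : ∀ u, ¬ IsCoprime (g.map φ) (χ (lev G u)) → χ (lev G u) = g.map φ ∧
      Fintype.card {i // lev G i = lev G u} = 2 := by
    intro u hu
    have h1 : χ (lev G u) ∣ g.map φ := by
      by_contra hcon
      exact hu (((hirr u).coprime_iff_not_dvd.2 hcon).symm)
    have h2 : (χ (lev G u)).natDegree = Fintype.card {i // lev G i = lev G u} :=
      Matrix.charpoly_natDegree_eq_dim _
    have h3 := Polynomial.natDegree_le_of_dvd h1 hgpm.ne_zero
    have h4 := block_card G hC u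
    have h5 : g.map φ = χ (lev G u) :=
      Polynomial.eq_of_monic_of_dvd_of_natDegree_le (Matrix.charpoly_monic _) hgpm h1 (by omega)
    exact ⟨h5.symm, by omega⟩
  obtain ⟨hχv, hcard⟩ := hdvd v hv
  obtain ⟨w, hvw, htw, hnadj⟩ := block_two G hC v hcard
  have hsq : Squarefree (∏ a ∈ Finset.univ.image (lev G), χ a) := by
    have h1 : A.charpoly.Separable := PerfectField.separable_iff_squarefree.2 hsf
    have h2 := (h1.map (f := φ)).squarefree
    rw [hcp, charpoly_blocks G hA] at h2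
    exact h2
  have hcop : ∀ u, lev G u ≠ lev G v → IsCoprime (g.map φ) (χ (lev G u)) := by
    intro u huv
    by_contra hcon
    obtain ⟨h1, -⟩ := hdvd u hcon
    have h2 : g.map φ * g.map φ ∣ ∏ a ∈ Finset.univ.image (lev G), χ a := by
      have h3 : ∏ a ∈ ({lev G u, lev G v} : Finset _), χ a = g.map φ * g.map φ := by
        rw [Finset.prod_pair huv, h1, hχv]
      rw [← h3]
      refine Finset.prod_dvd_prod_of_subset _ _ _ ?_
      intro a ha
      rcases Finset.mem_insert.1 ha with rfl | ha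
      · exact Finset.mem_image_of_mem _ (Finset.mem_univ _)
      · rw [Finset.mem_singleton.1 ha]
        exact Finset.mem_image_of_mem _ (Finset.mem_univ _)
    exact hgpu (hsq _ h2)
  -- the vectors
  have hconj : ∀ (r : ℚ_[p][X]) (x : Fin n → ℚ_[p]),
      P *ᵥ (aeval (A.map φ) r *ᵥ x) = aeval Ap r *ᵥ (P *ᵥ x) := by
    intro r x
    refine (aeval_restrict (A.map φ) Ap (Matrix.mulVecLin P) ⊤ (fun _ _ => trivial) ?_ r x trivial).2
    intro y _
    rw [Matrix.mulVecLin_apply, Matrix.mulVecLin_apply, hAp, Matrix.mulVec_mulVec,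
      Matrix.mulVec_mulVec, Matrix.mul_assoc, hP, Matrix.mul_one]
  have hzero : aeval (A.map φ) (g.map φ) * aeval (A.map φ) (q.map φ) = 0 := by
    rw [← map_mul, ← Polynomial.map_mul, ← hgq, ← Matrix.charpoly_map, Matrix.aeval_self_charpoly]
  have hsupp : ∀ i a, (P *ᵥ (aeval (A.map φ) (q.map φ) *ᵥ Pi.single i 1)) a ≠ 0 → Le G a v := by
    intro i
    refine supp_below G hA v (g.map φ) hcop _ ?_
    have h0 : aeval (A.map φ) (g.map φ) *ᵥ (aeval (A.map φ) (q.map φ) *ᵥ Pi.single i 1) = 0 := by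
      rw [Matrix.mulVec_mulVec, hzero, Matrix.zero_mulVec]
    rw [← hconj, h0, Matrix.mulVec_zero]
  have hmapvec : ∀ i, aeval (A.map φ) (q.map φ) *ᵥ Pi.single i 1 =
      fun a => φ ((aeval A q *ᵥ Pi.single i 1) a) := by
    intro i
    have h1 : aeval (A.map φ) (q.map φ) = (aeval A q).map φ := by
      rw [Polynomial.aeval_map_algebraMap]
      have h2 := Polynomial.aeval_algHom_apply ((Algebra.ofId ℚ ℚ_[p]).mapMatrix (m := Fin n)) A q
      exact h2
    ext a
    rw [h1]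
    simp [Matrix.mulVec_single]
  intro i j
  have h1 := h (aeval (A.map φ) (q.map φ) *ᵥ Pi.single i 1)
    (aeval (A.map φ) (q.map φ) *ᵥ Pi.single j 1)
  have h2 : br (bc φ (gam G)) (P *ᵥ (aeval (A.map φ) (q.map φ) *ᵥ Pi.single i 1))
      (P *ᵥ (aeval (A.map φ) (q.map φ) *ᵥ Pi.single j 1)) = 0 := by
    ext e
    rw [br_apply]
    refine Finset.sum_eq_zero fun a _ => Finset.sum_eq_zero fun b _ => ?_
    by_cases ha : (P *ᵥ (aeval (A.map φ) (q.map φ) *ᵥ Pi.single i 1)) a = 0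
    · rw [ha, zero_mul, zero_mul]
    by_cases hb : (P *ᵥ (aeval (A.map φ) (q.map φ) *ᵥ Pi.single j 1)) b = 0
    · rw [hb, mul_zero, zero_mul]
    rw [gam_not_adj G φ (no_edge_below G hvw htw hnadj (hsupp i a ha) (hsupp j b hb)), mul_zero]
  rw [h2] at h1
  have h3 : br (bc φ γ) (aeval (A.map φ) (q.map φ) *ᵥ Pi.single i 1)
      (aeval (A.map φ) (q.map φ) *ᵥ Pi.single j 1) = 0 := by
    have h4 := congrArg (fun z => Q' *ᵥ z) h1
    simp only [Matrix.mulVec_zero] at h4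
    rwa [Matrix.mulVec_mulVec, hQ, Matrix.one_mulVec] at h4
  rw [hmapvec, hmapvec, br_bc] at h3
  ext e
  have h5 := congrFun h3 e
  exact (map_eq_zero φ).1 h5

/-- the `p`-adic side -/
theorem padic_side (hF : S_FFM) (hC : Cond G) {γ : Fin n → Fin n → G.edgeSet → ℚ}
    {P P' : Matrix (Fin n) (Fin n) ℚ_[p]} {Q Q' : Matrix G.edgeSet G.edgeSet ℚ_[p]}
    (hP : P' * P = 1) (hP' : P * P' = 1) (hQ : Q' * Q = 1) (hQ' : Q * Q' = 1)
    (h : IsHm (bc (algebraMap ℚ ℚ_[p]) γ) (bc (algebraMap ℚ ℚ_[p]) (gam G)) P Q) :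
    ∃ (A₁ : Matrix (Fin n) (Fin n) ℚ_[p]) (B₁ : Matrix G.edgeSet G.edgeSet ℚ_[p]),
      IsDer (bc (algebraMap ℚ ℚ_[p]) γ) A₁ B₁ ∧
      ∀ᶠ A' in 𝓝 A₁, ∀ A B, A.map (algebraMap ℚ ℚ_[p]) = A' → IsDer γ A B → F1 A ∧ F2 γ A := by
  classical
  obtain ⟨A₀, hA₀, hA₀'⟩ := exists_target (p := p) G hF
  obtain ⟨B₀, hB₀⟩ := exists_isDer_of_twin G (algebraMap ℚ ℚ_[p]) A₀ hA₀
  refine ⟨P' * A₀ * P, Q' * B₀ * Q, hB₀.conj h hP hP' hQ, ?_⟩
  have hcont : Continuous fun A' : Matrix (Fin n) (Fin n) ℚ_[p] => P * A' * P' :=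
    (continuous_const.matrix_mul continuous_id).matrix_mul continuous_const
  have hval : P * (P' * A₀ * P) * P' = A₀ := by
    rw [← Matrix.mul_assoc, ← Matrix.mul_assoc, hP', Matrix.one_mul, Matrix.mul_assoc, hP',
      Matrix.mul_one]
  have hev : ∀ᶠ A' in 𝓝 (P' * A₀ * P), ∀ i j, ‖(P * A' * P') i j - A₀ i j‖ < 1 := by
    rw [eventually_all]
    intro i
    rw [eventually_all]
    intro j
    have hc : Continuous fun A' : Matrix (Fin n) (Fin n) ℚ_[p] => ‖(P * A' * P') i j - A₀ i j‖ :=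
      ((hcont.matrix_elem i j).sub continuous_const).norm
    have h1 : Tendsto (fun A' : Matrix (Fin n) (Fin n) ℚ_[p] => ‖(P * A' * P') i j - A₀ i j‖)
        (𝓝 (P' * A₀ * P)) (𝓝 0) := by
      have := hc.tendsto (P' * A₀ * P)
      simp only [hval, sub_self, norm_zero] at this
      exact this
    exact h1.eventually (gt_mem_nhds one_pos)
  filter_upwards [hev] with A' hA' A B hAA' hd
  subst hAA'
  set Ap := P * A.map (algebraMap ℚ ℚ_[p]) * P' with hAp
  have hirr := hA₀' Ap hA'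
  have hd' : IsDer (bc (algebraMap ℚ ℚ_[p]) (gam G)) Ap (Q * B.map (algebraMap ℚ ℚ_[p]) * Q') :=
    (hd.map (algebraMap ℚ ℚ_[p])).conj (h.symm hP' hQ) hP' hP hQ'
  have hle : ∀ i j, Ap i j ≠ 0 → Le G i j := fun i j hij =>
    le_of_isDer G (algebraMap ℚ ℚ_[p]) hd' hij
  have hcp : A.charpoly.map (algebraMap ℚ ℚ_[p]) = Ap.charpoly := by
    rw [← Matrix.charpoly_map, hAp, Matrix.charpoly_mul_comm, ← Matrix.mul_assoc, hP,
      Matrix.one_mul]
  exact ⟨F1_of G hC hle hirr hcp, F2_of G hC hP hQ h hAp hle hirr hcp⟩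

end

end Pool.Agent.P8H59.An
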