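import Pool.Agent.P8H59.An.Padic3

/-!
# A `ℚ_p`-point of the isomorphism (for S04415)
-/

set_option autoImplicit false
set_option linter.unusedSectionVars false

open Matrix Polynomial

namespace Pool.Agent.P8H59.An

section General

variable {S E : Type*} [Fintype S] [Fintype E] [DecidableEq S] [DecidableEq E]
variable {k : Type*} [CommRing k]

theorem IsHm.of_map {R : Type*} [CommRing R] (φ : R →+* k) (hφ : Function.Injective φ)
    {S' E' : Type*} [Fintype S'] [Fintype E'] [DecidableEq S'] [DecidableEq E']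
    {γ : S → S → E → R} {γ' : S' → S' → E' → R} {P : Matrix S' S R} {Q : Matrix E' E R}
    (h : IsHm (bc φ γ) (bc φ γ') (P.map φ) (Q.map φ)) : IsHm γ γ' P Q := by
  rw [isHm_iff] at h ⊢
  intro i j e
  apply hφ
  have := h i j e
  simpa [bc, map_add, map_sum, map_mul] using this

theorem bc_bc {R R' : Type*} [CommRing R] [CommRing R'] (φ : R →+* k) (ψ : R' →+* R)
    (γ : S → S → E → R') : bc φ (bc ψ γ) = bc (φ.comp ψ) γ := rfl

end General

section

variable {n : ℕ} (G : SimpleGraph (Fin n)) [Fintype G.edgeSet] [DecidableEq G.edgeSet]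

theorem padic_point (hPAD : S_PAD) {γ : Fin n → Fin n → G.edgeSet → ℚ}
    {P P' : Matrix (Fin n) (Fin n) ℝ} {Q Q' : Matrix G.edgeSet G.edgeSet ℝ}
    (hP : P' * P = 1) (hP' : P * P' = 1) (hQ : Q' * Q = 1) (hQ' : Q * Q' = 1)
    (h : IsHm (bc (algebraMap ℚ ℝ) γ) (bc (algebraMap ℚ ℝ) (gam G)) P Q) :
    ∃ (p : ℕ) (_ : Fact p.Prime) (P₁ P₁' : Matrix (Fin n) (Fin n) ℚ_[p])
      (Q₁ Q₁' : Matrix G.edgeSet G.edgeSet ℚ_[p]),
      P₁' * P₁ = 1 ∧ P₁ * P₁' = 1 ∧ Q₁' * Q₁ = 1 ∧ Q₁ * Q₁' = 1 ∧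
      IsHm (bc (algebraMap ℚ ℚ_[p]) γ) (bc (algebraMap ℚ ℚ_[p]) (gam G)) P₁ Q₁ := by
  classical
  let s : Set ℝ := (Set.range fun ij : Fin n × Fin n => P ij.1 ij.2) ∪
    (Set.range fun ij : Fin n × Fin n => P' ij.1 ij.2) ∪
    (Set.range fun ij : G.edgeSet × G.edgeSet => Q ij.1 ij.2) ∪
    (Set.range fun ij : G.edgeSet × G.edgeSet => Q' ij.1 ij.2)
  have hs : s.Finite :=
    (((Set.finite_range _).union (Set.finite_range _)).union (Set.finite_range _)).union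
      (Set.finite_range _)
  let A : Subalgebra ℚ ℝ := Algebra.adjoin ℚ s
  have : Algebra.FiniteType ℚ A := (Subalgebra.fg_iff_finiteType A).1
    (Subalgebra.fg_def.2 ⟨s, hs, rfl⟩)
  have hPm : ∀ i j, P i j ∈ A := fun i j =>
    Algebra.subset_adjoin (Or.inl (Or.inl (Or.inl ⟨(i, j), rfl⟩)))
  have hPm' : ∀ i j, P' i j ∈ A := fun i j =>
    Algebra.subset_adjoin (Or.inl (Or.inl (Or.inr ⟨(i, j), rfl⟩)))
  have hQm : ∀ i j, Q i j ∈ A := fun i j =>
    Algebra.subset_adjoin (Or.inl (Or.inr ⟨(i, j), rfl⟩))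
  have hQm' : ∀ i j, Q' i j ∈ A := fun i j =>
    Algebra.subset_adjoin (Or.inr ⟨(i, j), rfl⟩)
  let PA : Matrix (Fin n) (Fin n) A := fun i j => ⟨P i j, hPm i j⟩
  let PA' : Matrix (Fin n) (Fin n) A := fun i j => ⟨P' i j, hPm' i j⟩
  let QA : Matrix G.edgeSet G.edgeSet A := fun i j => ⟨Q i j, hQm i j⟩
  let QA' : Matrix G.edgeSet G.edgeSet A := fun i j => ⟨Q' i j, hQm' i j⟩
  let ι : A →+* ℝ := A.val.toRingHom
  have hι : Function.Injective ι := Subtype.val_injective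
  have e1 : PA' * PA = 1 := by
    apply Matrix.map_injective hι
    change Matrix.map (_ * _) ι = Matrix.map (1 : Matrix _ _ A) ι
    rw [Matrix.map_mul, Matrix.map_one ι (map_zero _) (map_one _)]
    exact hP
  have e2 : PA * PA' = 1 := by
    apply Matrix.map_injective hι
    change Matrix.map (_ * _) ι = Matrix.map (1 : Matrix _ _ A) ι
    rw [Matrix.map_mul, Matrix.map_one ι (map_zero _) (map_one _)]
    exact hP'
  have e3 : QA' * QA = 1 := by
    apply Matrix.map_injective hι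
    change Matrix.map (_ * _) ι = Matrix.map (1 : Matrix _ _ A) ι
    rw [Matrix.map_mul, Matrix.map_one ι (map_zero _) (map_one _)]
    exact hQ
  have e4 : QA * QA' = 1 := by
    apply Matrix.map_injective hι
    change Matrix.map (_ * _) ι = Matrix.map (1 : Matrix _ _ A) ι
    rw [Matrix.map_mul, Matrix.map_one ι (map_zero _) (map_one _)]
    exact hQ'
  have e5 : IsHm (bc (algebraMap ℚ A) γ) (bc (algebraMap ℚ A) (gam G)) PA QA :=
    IsHm.of_map ι hι h
  obtain ⟨p, hp, ⟨ψ⟩⟩ := hPAD A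
  let ψ' : A →+* ℚ_[p] := ψ.toRingHom
  refine ⟨p, hp, PA.map ψ', PA'.map ψ', QA.map ψ', QA'.map ψ', ?_, ?_, ?_, ?_, ?_⟩
  · rw [← Matrix.map_mul, e1, Matrix.map_one ψ' (map_zero _) (map_one _)]
  · rw [← Matrix.map_mul, e2, Matrix.map_one ψ' (map_zero _) (map_one _)]
  · rw [← Matrix.map_mul, e3, Matrix.map_one ψ' (map_zero _) (map_one _)]
  · rw [← Matrix.map_mul, e4, Matrix.map_one ψ' (map_zero _) (map_one _)]
  · have h1 := e5.map ψ'
    rw [bc_bc, bc_bc] at h1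
    have h2 : ψ'.comp (algebraMap ℚ A) = algebraMap ℚ ℚ_[p] := RingHom.ext_rat _ _
    rwa [h2] at h1

/-- the real target -/
theorem real_target : IsDer (bc (algebraMap ℚ ℝ) (gam G))
    (Matrix.diagonal fun i : Fin n => (4 : ℝ) ^ (i : ℕ))
    (Matrix.diagonal fun e : G.edgeSet => (4 : ℝ) ^ (e.1.inf : ℕ) + 4 ^ (e.1.sup : ℕ)) := by
  classical
  rw [isDer_iff]
  intro i j e
  have h1 : ∑ l, Matrix.diagonal (fun i : Fin n => (4 : ℝ) ^ (i : ℕ)) l i *
      bc (algebraMap ℚ ℝ) (gam G) l j e = 4 ^ (i : ℕ) * bc (algebraMap ℚ ℝ) (gam G) i j e := by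
    rw [Finset.sum_eq_single i]
    · rw [Matrix.diagonal_apply_eq]
    · intro l _ hl; rw [Matrix.diagonal_apply_ne _ hl, zero_mul]
    · simp
  have h2 : ∑ l, Matrix.diagonal (fun i : Fin n => (4 : ℝ) ^ (i : ℕ)) l j *
      bc (algebraMap ℚ ℝ) (gam G) i l e = 4 ^ (j : ℕ) * bc (algebraMap ℚ ℝ) (gam G) i j e := by
    rw [Finset.sum_eq_single j]
    · rw [Matrix.diagonal_apply_eq]
    · intro l _ hl; rw [Matrix.diagonal_apply_ne _ hl, zero_mul]
    · simp
  have h3 : ∑ f, Matrix.diagonal (fun e : G.edgeSet => (4 : ℝ) ^ (e.1.inf : ℕ) +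
      4 ^ (e.1.sup : ℕ)) e f * bc (algebraMap ℚ ℝ) (gam G) i j f =
      (4 ^ (e.1.inf : ℕ) + 4 ^ (e.1.sup : ℕ)) * bc (algebraMap ℚ ℝ) (gam G) i j e := by
    rw [Finset.sum_eq_single e]
    · rw [Matrix.diagonal_apply_eq]
    · intro l _ hl; rw [Matrix.diagonal_apply_ne _ (Ne.symm hl), zero_mul]
    · simp
  rw [h1, h2, h3]
  by_cases he : s(i, j) = e.1
  · rw [← he, Sym2.inf_mk, Sym2.sup_mk]
    rcases le_total i j with hij | hij
    · rw [inf_eq_left.2 hij, sup_eq_right.2 hij]; ring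
    · rw [inf_eq_right.2 hij, sup_eq_left.2 hij]; ring
  · rw [gam_ne G _ he]; ring

end

end Pool.Agent.P8H59.An
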