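import Pool.Agent.P8H59.An.Stm2

/-!
# MP_3d22c5_an (S04415): statement of the real side
-/

set_option autoImplicit false

open Polynomial Matrix

namespace Pool.Agent.P8H59.An

/-- Package REAL. A rational derivation `(A, B)` of `γ` whose eigenvalues are, up to a common factor
`T > 0`, close to `4 ^ i` and `4 ^ i + 4 ^ j` (`{i, j}` an edge). -/
def S_REAL : Prop :=
  ∀ (n : ℕ) (G : SimpleGraph (Fin n)) [Fintype G.edgeSet] [DecidableEq G.edgeSet]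
    (γ : Fin n → Fin n → G.edgeSet → ℚ),
    Submodule.span ℚ (Set.range fun ij : Fin n × Fin n => γ ij.1 ij.2) = ⊤ →
    (∀ i j e, γ i j e = - γ j i e) →
    ∀ (A : Matrix (Fin n) (Fin n) ℚ) (B : Matrix G.edgeSet G.edgeSet ℚ), IsDer γ A B →
    ∀ (T : ℝ) (ξ : Fin n → ℝ) (υ : G.edgeSet → ℝ), 0 < T →
      (∀ i, |ξ i - 4 ^ (i : ℕ)| < 1 / 10 ∧ (A.charpoly.map (algebraMap ℚ ℝ)).IsRoot (T * ξ i)) →
      (∀ e : G.edgeSet, |υ e - (4 ^ (e.1.inf : ℕ) + 4 ^ (e.1.sup : ℕ))| < 1 / 10 ∧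
        (B.charpoly.map (algebraMap ℚ ℝ)).IsRoot (T * υ e)) →
      Function.Injective (fun i => T * ξ i) ∧
      A.charpoly.map (algebraMap ℚ ℝ) = ∏ i, (X - C (T * ξ i)) ∧
      (∀ i j, G.Adj i j → ∀ g h : ℚ[X], A.charpoly = g * h → aeval (T * ξ i) g = 0 →
        aeval (T * ξ j) g = 0 →
        (∀ a b, br γ (aeval A h *ᵥ Pi.single a 1) (aeval A h *ᵥ Pi.single b 1) = 0) → False) ∧
      (∀ h : ℚ[X], ∃ Z : Matrix G.edgeSet G.edgeSet ℚ, IsHm γ γ (aeval A h) Z ∧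
        (aeval A h).charpoly.map (algebraMap ℚ ℝ) = ∏ i, (X - C (aeval (T * ξ i) h)) ∧
        Z.charpoly.map (algebraMap ℚ ℝ) = ∏ e : G.edgeSet,
          (X - C (aeval (T * ξ e.1.inf) h * aeval (T * ξ e.1.sup) h)))

end Pool.Agent.P8H59.An
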